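import Mathlib

set_option autoImplicit false

/-! Bessel families, Hilbert-Schmidt estimates and the three lines argument. -/

open scoped BigOperators

namespace Pool.Agent.H159.Clarkson

variable {E : Type*} [NormedAddCommGroup E] [InnerProductSpace ℂ E]

/-- Bessel families -/
def Bess {ι : Type*} [Fintype ι] (u : ι → E) : Prop :=
  ∀ x : E, ∑ k, ‖inner ℂ (u k) x‖ ^ 2 ≤ ‖x‖ ^ 2

section bess
variable {ι : Type*} [Fintype ι] {u v : ι → E}

lemma Bess.norm_le_one (h : Bess u) (k : ι) : ‖u k‖ ≤ 1 := by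
  have h1 := (Finset.single_le_sum (f := fun i => ‖inner ℂ (u i) (u k)‖ ^ 2)
    (fun i _ => sq_nonneg _) (Finset.mem_univ k)).trans (h (u k))
  have h2 : ‖inner ℂ (u k) (u k)‖ = ‖u k‖ ^ 2 := by
    rw [inner_self_eq_norm_sq_to_K]
    simp
  rw [h2] at h1
  by_contra hc
  push Not at hc
  have ht : 1 < ‖u k‖ ^ 2 := by nlinarith
  nlinarith

lemma Bess.sum_le (h : Bess u) (c : ι → ℂ) : ‖∑ k, c k • u k‖ ^ 2 ≤ ∑ k, ‖c k‖ ^ 2 := by
  set w := ∑ k, c k • u k with hw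
  have h1 : ‖w‖ ^ 2 ≤ ∑ k, ‖c k‖ * ‖inner ℂ (u k) w‖ := by
    have h2 : ‖w‖ ^ 2 = ‖inner ℂ w w‖ := by
      rw [inner_self_eq_norm_sq_to_K]; simp
    rw [h2]
    conv_lhs => rw [hw]
    rw [sum_inner]
    refine (norm_sum_le _ _).trans (le_of_eq ?_)
    refine Finset.sum_congr rfl fun k _ => ?_
    rw [inner_smul_left, norm_mul, RCLike.norm_conj]
  have h3 : (∑ k, ‖c k‖ * ‖inner ℂ (u k) w‖) ^ 2 ≤ (∑ k, ‖c k‖ ^ 2) * ∑ k, ‖inner ℂ (u k) w‖ ^ 2 :=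
    Finset.sum_mul_sq_le_sq_mul_sq _ _ _
  have h4 := h w
  have h5 : (‖w‖ ^ 2) ^ 2 ≤ (∑ k, ‖c k‖ ^ 2) * ‖w‖ ^ 2 := by
    calc (‖w‖ ^ 2) ^ 2 ≤ (∑ k, ‖c k‖ * ‖inner ℂ (u k) w‖) ^ 2 :=
          pow_le_pow_left₀ (sq_nonneg _) h1 2
      _ ≤ _ := h3
      _ ≤ _ := mul_le_mul_of_nonneg_left h4 (Finset.sum_nonneg fun _ _ => sq_nonneg _)
  have h6 : 0 ≤ ∑ k, ‖c k‖ ^ 2 := Finset.sum_nonneg fun _ _ => sq_nonneg _
  by_contra hc
  push Not at hc
  nlinarith [sq_nonneg (‖w‖)]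

lemma Bess.pair_le (hu : Bess u) (hv : Bess v) (x y : E) (c : ι → ℂ) {β : ℝ} (hβ : 0 ≤ β)
    (hc : ∀ k, ‖c k‖ ≤ β) :
    ‖∑ k, c k * (inner ℂ x (u k) * inner ℂ (v k) y)‖ ≤ β * (‖x‖ * ‖y‖) := by
  have h1 : ‖∑ k, c k * (inner ℂ x (u k) * inner ℂ (v k) y)‖ ≤
      β * ∑ k, ‖inner ℂ (u k) x‖ * ‖inner ℂ (v k) y‖ := by
    rw [Finset.mul_sum]
    refine (norm_sum_le _ _).trans (Finset.sum_le_sum fun k _ => ?_)
    rw [norm_mul, norm_mul, norm_inner_symm x (u k)]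
    exact mul_le_mul_of_nonneg_right (hc k) (by positivity)
  refine h1.trans (mul_le_mul_of_nonneg_left ?_ hβ)
  have h3 : (∑ k, ‖inner ℂ (u k) x‖ * ‖inner ℂ (v k) y‖) ^ 2 ≤
      (∑ k, ‖inner ℂ (u k) x‖ ^ 2) * ∑ k, ‖inner ℂ (v k) y‖ ^ 2 :=
    Finset.sum_mul_sq_le_sq_mul_sq _ _ _
  have h4 : (∑ k, ‖inner ℂ (u k) x‖ * ‖inner ℂ (v k) y‖) ^ 2 ≤ (‖x‖ * ‖y‖) ^ 2 := by
    refine h3.trans ?_
    rw [mul_pow]
    exact mul_le_mul (hu x) (hv y) (Finset.sum_nonneg fun _ _ => sq_nonneg _) (sq_nonneg _)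
  exact le_of_sq_le_sq h4 (by positivity)

lemma bess_of_orth (hu1 : ∀ k, ‖u k‖ ≤ 1) (hu : ∀ k l, k ≠ l → inner ℂ (u k) (u l) = 0) :
    Bess u := by
  intro x
  set S := ∑ k, ‖inner ℂ (u k) x‖ ^ 2 with hS
  have hS0 : 0 ≤ S := Finset.sum_nonneg fun _ _ => sq_nonneg _
  set w : E := ∑ k, (inner ℂ (u k) x) • u k with hw
  have h1 : ‖inner ℂ w x‖ = S := by
    rw [hw, sum_inner]
    have : ∀ k ∈ Finset.univ, inner ℂ ((inner ℂ (u k) x) • u k) x
        = (((‖inner ℂ (u k) x‖ ^ 2 : ℝ)) : ℂ) := by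
      intro k _
      rw [inner_smul_left]
      have := RCLike.conj_mul (inner ℂ (u k) x)
      rw [this]
      push_cast
      rfl
    rw [Finset.sum_congr rfl this, ← Complex.ofReal_sum, Complex.norm_real, Real.norm_eq_abs,
      abs_of_nonneg hS0]
  have h2 : ‖w‖ ^ 2 ≤ S := by
    have h3 : ((‖w‖ ^ 2 : ℝ) : ℂ) = ∑ k, (((‖inner ℂ (u k) x‖ ^ 2 * ‖u k‖ ^ 2 : ℝ)) : ℂ) := by
      have : ((‖w‖ ^ 2 : ℝ) : ℂ) = inner ℂ w w := by
        rw [inner_self_eq_norm_sq_to_K]; push_cast; rfl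
      rw [this]
      conv_lhs => rw [hw]
      rw [sum_inner]
      refine Finset.sum_congr rfl fun k _ => ?_
      rw [inner_smul_left, inner_sum, Finset.sum_eq_single k]
      · rw [inner_smul_right, inner_self_eq_norm_sq_to_K]
        have := RCLike.conj_mul (inner ℂ (u k) x)
        rw [← mul_assoc, this]
        push_cast
        rfl
      · intro l _ hl
        rw [inner_smul_right, hu k l (Ne.symm hl), mul_zero]
      · intro h; exact absurd (Finset.mem_univ k) h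
    rw [← Complex.ofReal_sum] at h3
    have h4 := Complex.ofReal_injective h3
    rw [h4]
    refine Finset.sum_le_sum fun k _ => ?_
    have : ‖u k‖ ^ 2 ≤ 1 := pow_le_one₀ (norm_nonneg _) (hu1 k)
    nlinarith [sq_nonneg ‖inner ℂ (u k) x‖]
  have h5 : S ≤ ‖w‖ * ‖x‖ := by rw [← h1]; exact norm_inner_le_norm w x
  have h6 : S ^ 2 ≤ S * ‖x‖ ^ 2 := by
    calc S ^ 2 ≤ (‖w‖ * ‖x‖) ^ 2 := pow_le_pow_left₀ hS0 h5 2
      _ = ‖w‖ ^ 2 * ‖x‖ ^ 2 := by ring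
      _ ≤ S * ‖x‖ ^ 2 := mul_le_mul_of_nonneg_right h2 (sq_nonneg _)
  by_contra hc
  push Not at hc
  nlinarith [sq_nonneg ‖x‖]

lemma bess_onb {ι : Type*} [Fintype ι] (e : OrthonormalBasis ι ℂ E) : Bess (fun k => e k) :=
  fun x => (e.sum_sq_norm_inner_right x).le

end bess

/-- Hilbert-Schmidt: Bessel families give less than orthonormal bases -/
lemma hs_le {κ ι : Type*} [Fintype κ] [Fintype ι] [FiniteDimensional ℂ E]
    (e : OrthonormalBasis κ ℂ E) (C : E →ₗ[ℂ] E) {x : ι → E} (hx : Bess x) :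
    ∑ l, ‖C (x l)‖ ^ 2 ≤ ∑ m, ‖C (e m)‖ ^ 2 := by
  have h1 : ∀ l, ‖C (x l)‖ ^ 2 = ∑ m, ‖inner ℂ (x l) (LinearMap.adjoint C (e m))‖ ^ 2 := by
    intro l
    rw [← e.sum_sq_norm_inner_right (C (x l))]
    refine Finset.sum_congr rfl fun m _ => ?_
    rw [LinearMap.adjoint_inner_right, norm_inner_symm]
  have h2 : ∀ m, ‖C (e m)‖ ^ 2 = ∑ m', ‖inner ℂ (e m) (LinearMap.adjoint C (e m'))‖ ^ 2 := by
    intro m
    rw [← e.sum_sq_norm_inner_right (C (e m))]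
    refine Finset.sum_congr rfl fun m' _ => ?_
    rw [LinearMap.adjoint_inner_right, norm_inner_symm]
  calc ∑ l, ‖C (x l)‖ ^ 2 = ∑ m, ∑ l, ‖inner ℂ (x l) (LinearMap.adjoint C (e m))‖ ^ 2 := by
        rw [Finset.sum_comm]; exact Finset.sum_congr rfl fun l _ => h1 l
    _ ≤ ∑ m', ‖LinearMap.adjoint C (e m')‖ ^ 2 := Finset.sum_le_sum fun m _ => hx _
    _ = ∑ m', ∑ m, ‖inner ℂ (e m) (LinearMap.adjoint C (e m'))‖ ^ 2 :=
        Finset.sum_congr rfl fun m' _ => (e.sum_sq_norm_inner_right _).symm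
    _ = ∑ m, ‖C (e m)‖ ^ 2 := by
        rw [Finset.sum_comm]; exact Finset.sum_congr rfl fun m _ => (h2 m).symm

/-- `t ^ w` for `t > 0`, and `0` for `t = 0` -/
noncomputable def pw (t : ℝ) (w : ℂ) : ℂ := if t = 0 then 0 else Complex.exp (w * Real.log t)

lemma norm_pw_le {t : ℝ} (ht : 0 ≤ t) (w : ℂ) : ‖pw t w‖ ≤ t ^ w.re := by
  unfold pw
  split_ifs with h
  · simp only [norm_zero]; positivity
  · have ht' : 0 < t := lt_of_le_of_ne ht (Ne.symm h)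
    rw [Complex.norm_exp, Real.rpow_def_of_pos ht']
    simp only [Complex.mul_re, Complex.ofReal_re, Complex.ofReal_im, mul_zero, sub_zero]
    rw [mul_comm]

lemma pw_real {t : ℝ} (ht : 0 ≤ t) {r : ℝ} (hr : r ≠ 0) : pw t (r : ℂ) = ((t ^ r : ℝ) : ℂ) := by
  unfold pw
  split_ifs with h
  · rw [h, Real.zero_rpow hr]; simp
  · have ht' : 0 < t := lt_of_le_of_ne ht (Ne.symm h)
    rw [Real.rpow_def_of_pos ht', Complex.ofReal_exp]
    congr 1
    push_cast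
    ring

/-- differentiable functions, bounded on the closed strip -/
def Good (f : ℂ → ℂ) : Prop :=
  Differentiable ℂ f ∧ ∃ M : ℝ, ∀ z : ℂ, 0 ≤ z.re → z.re ≤ 1 → ‖f z‖ ≤ M

lemma good_const (c : ℂ) : Good fun _ => c := ⟨differentiable_const c, ‖c‖, fun _ _ _ => le_rfl⟩

lemma Good.mul {f g : ℂ → ℂ} (hf : Good f) (hg : Good g) : Good fun z => f z * g z := by
  obtain ⟨hf1, M, hM⟩ := hf
  obtain ⟨hg1, N, hN⟩ := hg
  refine ⟨hf1.mul hg1, M * N, fun z h0 h1 => ?_⟩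
  rw [norm_mul]
  exact mul_le_mul (hM z h0 h1) (hN z h0 h1) (norm_nonneg _) ((norm_nonneg _).trans (hM z h0 h1))

lemma good_sum {ι : Type*} (s : Finset ι) {f : ι → ℂ → ℂ} (hf : ∀ i ∈ s, Good (f i)) :
    Good fun z => ∑ i ∈ s, f i z := by
  classical
  induction s using Finset.induction_on with
  | empty => simpa using good_const 0
  | insert a s ha ih =>
    simp only [Finset.sum_insert ha]
    obtain ⟨h1, M, hM⟩ := hf a (Finset.mem_insert_self a s)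
    obtain ⟨h2, N, hN⟩ := ih fun i hi => hf i (Finset.mem_insert_of_mem hi)
    exact ⟨h1.add h2, M + N, fun z h0 h1 => (norm_add_le _ _).trans (add_le_add (hM z h0 h1)
      (hN z h0 h1))⟩

lemma good_pw {t : ℝ} (ht : 0 ≤ t) (α β : ℝ) : Good fun z => pw t ((α : ℂ) + β * z) := by
  unfold pw
  by_cases h : t = 0
  · simp only [h, if_true]; exact good_const 0
  · simp only [h, if_false]
    refine ⟨by fun_prop, Real.exp ((|α| + |β|) * |Real.log t|), fun z h0 h1 => ?_⟩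
    rw [Complex.norm_exp]
    apply Real.exp_le_exp.2
    simp only [Complex.mul_re, Complex.add_re, Complex.ofReal_re, Complex.ofReal_im, mul_zero,
      sub_zero, zero_mul]
    refine (le_abs_self _).trans ?_
    rw [abs_mul]
    refine mul_le_mul_of_nonneg_right ?_ (abs_nonneg _)
    refine (abs_add_le _ _).trans (add_le_add le_rfl ?_)
    rw [abs_mul]
    have : |z.re| ≤ 1 := abs_le.2 ⟨by linarith, h1⟩
    nlinarith [abs_nonneg β]

/-- three lines for good functions -/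
lemma three_lines {f : ℂ → ℂ} (hf : Good f) {a b θ : ℝ} (h0 : 0 ≤ θ) (h1 : θ ≤ 1)
    (ha : ∀ z : ℂ, z.re = 0 → ‖f z‖ ≤ a) (hb : ∀ z : ℂ, z.re = 1 → ‖f z‖ ≤ b) :
    ‖f (θ : ℂ)‖ ≤ a ^ (1 - θ) * b ^ θ := by
  have h := Complex.HadamardThreeLines.norm_le_interp_of_mem_verticalClosedStrip₀₁' (f := f)
    (z := (θ : ℂ)) (a := a) (b := b) (by
      simp only [Complex.HadamardThreeLines.verticalClosedStrip, Set.mem_preimage,
        Complex.ofReal_re, Set.mem_Icc]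
      exact ⟨h0, h1⟩) hf.1.diffContOnCl (by
      obtain ⟨M, hM⟩ := hf.2
      refine ⟨M, ?_⟩
      rintro _ ⟨z, hz, rfl⟩
      simp only [Complex.HadamardThreeLines.verticalClosedStrip, Set.mem_preimage,
        Set.mem_Icc] at hz
      exact hM z hz.1 hz.2) (fun z hz => ha z (by simpa using hz)) (fun z hz => hb z (by simpa using hz))
  simpa using h

end Pool.Agent.H159.Clarkson
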