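import Pool.Agent.H159.Clarkson.EY

set_option autoImplicit false

/-! Compressions to finite dimensional subspaces and passage to the limit. -/

open scoped BigOperators
open Filter Topology

namespace Pool.Agent.H159.Clarkson

universe u

variable {H : Type u} [NormedAddCommGroup H] [InnerProductSpace ℂ H]

/-- compression of an operator to a subspace -/
noncomputable def comp (V : Submodule ℂ H) [FiniteDimensional ℂ V] (A : H →L[ℂ] H) : V →L[ℂ] V :=
  V.orthogonalProjectionOnto ∘L A ∘L V.subtypeL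

/-- `P A P`, with `P` the projection on `V` -/
noncomputable def cut (V : Submodule ℂ H) [FiniteDimensional ℂ V] (A : H →L[ℂ] H) : H →L[ℂ] H :=
  V.subtypeL ∘L comp V A ∘L V.orthogonalProjectionOnto

section
variable (V : Submodule ℂ H) [FiniteDimensional ℂ V] (A B : H →L[ℂ] H)

lemma cut_apply (x : H) : cut V A x = V.starProjection (A (V.starProjection x)) := rfl

lemma subtypeL_norm_le : ‖V.subtypeL‖ ≤ 1 :=
  ContinuousLinearMap.opNorm_le_bound _ zero_le_one fun x => by simp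

lemma sv_compr_le (k : ℕ) : sv (comp V A) k ≤ sv A k :=
  sv_comp_le A (V.orthogonalProjectionOnto_norm_le) (subtypeL_norm_le V) k

lemma sv_cut_le (k : ℕ) : sv (cut V A) k ≤ sv (comp V A) k :=
  sv_comp_le (comp V A) (subtypeL_norm_le V) (V.orthogonalProjectionOnto_norm_le) k

lemma sv_le_compr (k : ℕ) : sv A k ≤ sv (comp V A) k + ‖A - cut V A‖ := by
  have h1 := sv_le_add_norm A (cut V A) k
  have h2 := sv_cut_le V A k
  linarith

lemma norm_cut_le : ‖cut V A‖ ≤ ‖A‖ := by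
  refine ContinuousLinearMap.opNorm_le_bound _ (norm_nonneg _) fun x => ?_
  rw [cut_apply]
  calc ‖V.starProjection (A (V.starProjection x))‖ ≤ ‖A (V.starProjection x)‖ :=
        V.norm_starProjection_apply_le _
    _ ≤ ‖A‖ * ‖V.starProjection x‖ := A.le_opNorm _
    _ ≤ ‖A‖ * ‖x‖ := mul_le_mul_of_nonneg_left (V.norm_starProjection_apply_le _) (norm_nonneg _)

lemma cut_sub : cut V (A - B) = cut V A - cut V B := by
  ext x; simp [cut_apply]

lemma comp_sum {J : Type*} [Fintype J] (c : J → ℂ) (A : J → H →L[ℂ] H) :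
    comp V (∑ j, c j • A j) = ∑ j, c j • comp V (A j) := by
  refine ContinuousLinearMap.ext fun x => ?_
  simp only [comp, ContinuousLinearMap.comp_apply, _root_.sum_apply, _root_.smul_apply,
    map_sum, map_smul]

lemma cut_sum {J : Type*} [Fintype J] (c : J → ℂ) (A : J → H →L[ℂ] H) :
    cut V (∑ j, c j • A j) = ∑ j, c j • cut V (A j) := by
  refine ContinuousLinearMap.ext fun x => ?_
  simp only [cut, comp_sum, ContinuousLinearMap.comp_apply, _root_.sum_apply,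
    _root_.smul_apply, map_sum, map_smul]

end

lemma cut_eq_self [CompleteSpace H] (V : Submodule ℂ H) [FiniteDimensional ℂ V] (F : H →L[ℂ] H)
    (h1 : LinearMap.range (F : H →ₗ[ℂ] H) ≤ V)
    (h2 : (LinearMap.range (F : H →ₗ[ℂ] H)).map
      ((ContinuousLinearMap.adjoint F : H →L[ℂ] H) : H →ₗ[ℂ] H) ≤ V) : cut V F = F := by
  ext x
  rw [cut_apply]
  set y := x - V.starProjection x with hy
  have h3 : F y = 0 := by
    have h4 : inner ℂ y (ContinuousLinearMap.adjoint F (F y)) = 0 :=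
      V.starProjection_inner_eq_zero x _ (h2 ⟨F y, ⟨y, rfl⟩, rfl⟩)
    rw [ContinuousLinearMap.adjoint_inner_right] at h4
    exact inner_self_eq_zero.1 h4
  have h5 : F (V.starProjection x) = F x := by
    rw [hy, map_sub, sub_eq_zero] at h3
    exact h3.symm
  rw [h5]
  exact V.starProjection_eq_self_iff.2 (h1 ⟨x, rfl⟩)

lemma norm_sub_cut_le (V : Submodule ℂ H) [FiniteDimensional ℂ V] (A F : H →L[ℂ] H)
    (h : cut V F = F) : ‖A - cut V A‖ ≤ 2 * ‖A - F‖ := by
  have h1 : A - cut V A = (A - F) - cut V (A - F) := by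
    rw [cut_sub, h]; abel
  rw [h1]
  have h2 := norm_sub_le (A - F) (cut V (A - F))
  have h3 := norm_cut_le V (A - F)
  linarith

lemma RankLe.finiteDimensional {F : H →L[ℂ] H} {k : ℕ} (h : RankLe F k) :
    FiniteDimensional ℂ (LinearMap.range (F : H →ₗ[ℂ] H)) := by
  have h1 : Module.rank ℂ (LinearMap.range (F : H →ₗ[ℂ] H)) < Cardinal.aleph0 :=
    lt_of_le_of_lt (show _ ≤ (k : Cardinal) from h) (Cardinal.natCast_lt_aleph0)
  exact Module.rank_lt_aleph0_iff.1 h1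

lemma exists_subspace [CompleteSpace H] {J : Type*} [Finite J] (A : J → H →L[ℂ] H)
    (hA : ∀ j, Tendsto (sv (A j)) atTop (𝓝 0)) {ε : ℝ} (hε : 0 < ε) :
    ∃ (V : Submodule ℂ H) (_ : FiniteDimensional ℂ V), ∀ j, ‖A j - cut V (A j)‖ ≤ ε := by
  have h1 : ∀ j, ∃ F : H →L[ℂ] H, FiniteDimensional ℂ (LinearMap.range (F : H →ₗ[ℂ] H)) ∧
      ‖A j - F‖ < ε / 2 := by
    intro j
    obtain ⟨k, hk⟩ := ((hA j).eventually (gt_mem_nhds (half_pos hε))).exists
    obtain ⟨F, hF, h⟩ := exists_lt_sv (A j) k hk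
    exact ⟨F, hF.finiteDimensional, h⟩
  choose F hF hFA using h1
  have hfd : ∀ j, FiniteDimensional ℂ (LinearMap.range (F j : H →ₗ[ℂ] H) ⊔
      (LinearMap.range (F j : H →ₗ[ℂ] H)).map
        ((ContinuousLinearMap.adjoint (F j) : H →L[ℂ] H) : H →ₗ[ℂ] H) : Submodule ℂ H) := by
    intro j
    have := hF j
    infer_instance
  refine ⟨⨆ j, (LinearMap.range (F j : H →ₗ[ℂ] H) ⊔
      (LinearMap.range (F j : H →ₗ[ℂ] H)).map
        ((ContinuousLinearMap.adjoint (F j) : H →L[ℂ] H) : H →ₗ[ℂ] H)), ?_, ?_⟩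
  · exact Submodule.finite_iSup _
  · intro j
    refine (norm_sub_cut_le _ (A j) (F j) (cut_eq_self _ (F j) ?_ ?_)).trans ?_
    · exact le_sup_left.trans (le_iSup (fun j => (LinearMap.range (F j : H →ₗ[ℂ] H) ⊔
        (LinearMap.range (F j : H →ₗ[ℂ] H)).map
        ((ContinuousLinearMap.adjoint (F j) : H →L[ℂ] H) : H →ₗ[ℂ] H))) j)
    · exact le_sup_right.trans (le_iSup (fun j => (LinearMap.range (F j : H →ₗ[ℂ] H) ⊔
        (LinearMap.range (F j : H →ₗ[ℂ] H)).map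
        ((ContinuousLinearMap.adjoint (F j) : H →L[ℂ] H) : H →ₗ[ℂ] H))) j)
    · linarith [hFA j]

lemma tendsto_tsum_comp {p : ℝ} (hp : 0 < p) {D : H →L[ℂ] H} (hD : InSp p D)
    (V : ℕ → Submodule ℂ H) (hV : ∀ m, FiniteDimensional ℂ (V m))
    (h : Tendsto (fun m => ‖D - cut (V m) D‖) atTop (𝓝 0)) :
    Tendsto (fun m => ∑' k, sv (comp (V m) D) k ^ p) atTop (𝓝 (∑' k, sv D k ^ p)) := by
  refine tendsto_tsum_of_dominated_convergence hD (fun k => ?_) (Eventually.of_forall fun m k => ?_)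
  · have h1 : Tendsto (fun m => sv (comp (V m) D) k) atTop (𝓝 (sv D k)) := by
      refine tendsto_of_tendsto_of_tendsto_of_le_of_le (g := fun m => sv D k - ‖D - cut (V m) D‖)
        (h := fun _ => sv D k) ?_ tendsto_const_nhds (fun m => ?_) (fun m => sv_compr_le _ _ _)
      · simpa using (tendsto_const_nhds (x := sv D k)).sub h
      · have := sv_le_compr (V m) D k
        simp only
        linarith
    exact h1.rpow_const (Or.inr hp.le)
  · rw [Real.norm_eq_abs, abs_of_nonneg (Real.rpow_nonneg (sv_nonneg _ _) _)]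
    exact Real.rpow_le_rpow (sv_nonneg _ _) (sv_compr_le _ _ _) hp.le

variable {J I : Type*} [Fintype J] [Fintype I] [DecidableEq J] {T : I → J → ℝ} {n : ℝ}

lemma exists_seq [CompleteSpace H] {p : ℝ} (hp : 0 < p) (A : J → H →L[ℂ] H)
    (hA : ∀ j, InSp p (A j)) (T : I → J → ℝ) :
    ∃ (V : ℕ → Submodule ℂ H) (_ : ∀ m, FiniteDimensional ℂ (V m)),
      (∀ j, Tendsto (fun m => ∑' k, sv (comp (V m) (A j)) k ^ p) atTop
        (𝓝 (∑' k, sv (A j) k ^ p))) ∧
      ∀ i, Tendsto (fun m => ∑' k, sv (∑ j, (T i j : ℂ) • comp (V m) (A j)) k ^ p) atTop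
        (𝓝 (∑' k, sv (∑ j, (T i j : ℂ) • A j) k ^ p)) := by
  have h1 : ∀ m : ℕ, ∃ (V : Submodule ℂ H) (_ : FiniteDimensional ℂ V),
      ∀ j, ‖A j - cut V (A j)‖ ≤ 1 / ((m : ℝ) + 1) := fun m =>
    exists_subspace A (fun j => (hA j).tendsto hp) (by positivity)
  choose V hV hVA using h1
  have hlim : ∀ j, Tendsto (fun m => ‖A j - cut (V m) (A j)‖) atTop (𝓝 0) := fun j =>
    squeeze_zero (fun _ => norm_nonneg _) (fun m => hVA m j) tendsto_one_div_add_atTop_nhds_zero_nat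
  refine ⟨V, hV, fun j => tendsto_tsum_comp hp (hA j) V hV (hlim j), fun i => ?_⟩
  have hS : InSp p (∑ j, (T i j : ℂ) • A j) := inSp_sum _ hp fun j _ => (hA j).smul hp _
  have hlim2 : Tendsto (fun m => ‖(∑ j, (T i j : ℂ) • A j) - cut (V m) (∑ j, (T i j : ℂ) • A j)‖)
      atTop (𝓝 0) := by
    have h2 : Tendsto (fun m => ∑ j, ‖(T i j : ℂ)‖ * ‖A j - cut (V m) (A j)‖) atTop (𝓝 0) := by
      have : Tendsto (fun m => ∑ j, ‖(T i j : ℂ)‖ * ‖A j - cut (V m) (A j)‖) atTop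
          (𝓝 (∑ j : J, ‖(T i j : ℂ)‖ * 0)) := tendsto_finsetSum _ fun j _ => (hlim j).const_mul _
      simpa using this
    refine squeeze_zero (fun _ => norm_nonneg _) (fun m => ?_) h2
    rw [cut_sum, ← Finset.sum_sub_distrib]
    refine (norm_sum_le _ _).trans (Finset.sum_le_sum fun j _ => ?_)
    rw [← smul_sub, norm_smul]
  have h3 := tendsto_tsum_comp hp hS V hV hlim2
  simp only [comp_sum] at h3
  exact h3

/-- the general inequality, `1 < p ≤ 2` -/
theorem gen_le [CompleteSpace H] (A : J → H →L[ℂ] H) (hT1 : ∀ i j, |T i j| ≤ 1)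
    (hTT : ∀ j j', ∑ i, T i j * T i j' = if j = j' then n else 0) (hn : 0 ≤ n)
    {p q : ℝ} (hp : 1 < p) (hp2 : p ≤ 2) (hpq : 1 / p + 1 / q = 1) (hA : ∀ j, InSp p (A j)) :
    ∑ i, (∑' l, sv (∑ j, (T i j : ℂ) • A j) l ^ p) ^ (q / p) ≤
      n * (∑ j, ∑' k, sv (A j) k ^ p) ^ (q / p) := by
  have hp0 : 0 < p := by linarith
  have hq0 : 0 < q := by
    have h1 : 1 / p < 1 := by rw [div_lt_one hp0]; exact hp
    exact one_div_pos.1 (by linarith)
  obtain ⟨V, hV, h1, h2⟩ := exists_seq hp0 A hA T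
  have h3 : Tendsto (fun m => ∑ i, (∑' k, sv (∑ j, (T i j : ℂ) • comp (V m) (A j)) k ^ p) ^ (q / p))
      atTop (𝓝 (∑ i, (∑' l, sv (∑ j, (T i j : ℂ) • A j) l ^ p) ^ (q / p))) :=
    tendsto_finsetSum _ fun i _ => (h2 i).rpow_const (Or.inr (by positivity))
  have h4 : Tendsto (fun m => n * (∑ j, ∑' k, sv (comp (V m) (A j)) k ^ p) ^ (q / p)) atTop
      (𝓝 (n * (∑ j, ∑' k, sv (A j) k ^ p) ^ (q / p))) :=
    ((tendsto_finsetSum _ fun j _ => h1 j).rpow_const (Or.inr (by positivity))).const_mul _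
  exact le_of_tendsto_of_tendsto' h3 h4 fun m =>
    fd_le (fun j => comp (V m) (A j)) hT1 hTT hn hp hp2 hpq

/-- the general inequality, `2 ≤ p` -/
theorem gen_ge [CompleteSpace H] (A : J → H →L[ℂ] H) (hT1 : ∀ i j, |T i j| ≤ 1)
    (hTT : ∀ j j', ∑ i, T i j * T i j' = if j = j' then n else 0) (hn : 0 < n)
    {p q : ℝ} (hp : 2 ≤ p) (hpq : 1 / p + 1 / q = 1) (hA : ∀ j, InSp p (A j)) :
    n * (∑ j, ∑' k, sv (A j) k ^ p) ^ (q / p) ≤
      ∑ i, (∑' l, sv (∑ j, (T i j : ℂ) • A j) l ^ p) ^ (q / p) := by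
  have hp0 : 0 < p := by linarith
  have hq0 : 0 < q := by
    have h1 : 1 / p < 1 := by rw [div_lt_one hp0]; linarith
    exact one_div_pos.1 (by linarith)
  obtain ⟨V, hV, h1, h2⟩ := exists_seq hp0 A hA T
  have h3 : Tendsto (fun m => ∑ i, (∑' k, sv (∑ j, (T i j : ℂ) • comp (V m) (A j)) k ^ p) ^ (q / p))
      atTop (𝓝 (∑ i, (∑' l, sv (∑ j, (T i j : ℂ) • A j) l ^ p) ^ (q / p))) :=
    tendsto_finsetSum _ fun i _ => (h2 i).rpow_const (Or.inr (by positivity))
  have h4 : Tendsto (fun m => n * (∑ j, ∑' k, sv (comp (V m) (A j)) k ^ p) ^ (q / p)) atTop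
      (𝓝 (n * (∑ j, ∑' k, sv (A j) k ^ p) ^ (q / p))) :=
    ((tendsto_finsetSum _ fun j _ => h1 j).rpow_const (Or.inr (by positivity))).const_mul _
  exact le_of_tendsto_of_tendsto' h4 h3 fun m =>
    fd_ge (fun j => comp (V m) (A j)) hT1 hTT hn hp hpq

end Pool.Agent.H159.Clarkson
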