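import Pool.Agent.H159.Clarkson.Sv

set_option autoImplicit false

/-! Finite dimensional Eckart-Young: approximation numbers are the singular values. -/

open scoped BigOperators
open Filter Topology

namespace Pool.Agent.H159.Clarkson

universe u

variable {E : Type u} [NormedAddCommGroup E] [InnerProductSpace ℂ E] [FiniteDimensional ℂ E]
variable {A : E →L[ℂ] E} {N : ℕ}

lemma Svd.inner_u_apply (s : Svd (A : E →ₗ[ℂ] E) N) (k : Fin N) (x : E) :
    inner ℂ (s.u k) (A x) = (s.σ k : ℂ) * inner ℂ (s.v k) x := by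
  have h0 : A x = ∑ l, ((s.σ l : ℂ) * inner ℂ (s.v l) x) • s.u l := by
    have := op_apply (fun k => (s.σ k : ℂ)) s.u (fun k => s.v k) x
    rw [s.op_eq] at this
    exact this
  rw [h0, inner_sum, Finset.sum_eq_single k]
  · rw [inner_smul_right]
    by_cases h : s.σ k = 0
    · rw [h]; simp
    · rw [inner_self_eq_norm_sq_to_K, s.norm_u k h]; simp
  · intro l _ hl
    rw [inner_smul_right, s.orth k l (Ne.symm hl), mul_zero]
  · intro h; exact absurd (Finset.mem_univ k) h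

lemma Svd.sv_upper (s : Svd (A : E →ₗ[ℂ] E) N) (k : ℕ) {c : ℝ} (hc : 0 ≤ c)
    (h : ∀ l : Fin N, k ≤ l.val → s.σ l ≤ c) : sv A k ≤ c := by
  classical
  set a : Fin N → ℂ := fun l => if l.val < k then (s.σ l : ℂ) else 0 with ha
  set F : E →L[ℂ] E := LinearMap.toContinuousLinearMap (op a s.u (fun k => s.v k)) with hF
  have hFr : RankLe F k := by
    unfold RankLe
    have e : (F : E →ₗ[ℂ] E) = op a s.u (fun k => s.v k) := by ext; rfl
    rw [e]
    set S : Finset E := (Finset.univ.filter fun l : Fin N => l.val < k).image s.u with hS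
    have h1 : LinearMap.range (op a s.u (fun k => s.v k)) ≤ Submodule.span ℂ (S : Set E) := by
      rintro _ ⟨x, rfl⟩
      rw [op_apply]
      refine Submodule.sum_mem _ fun l _ => ?_
      by_cases hl : l.val < k
      · exact Submodule.smul_mem _ _ (Submodule.subset_span (by
          rw [hS]
          simp only [Finset.coe_image, Set.mem_image, Finset.coe_filter, Set.mem_ofPred_eq]
          exact ⟨l, ⟨Finset.mem_univ _, hl⟩, rfl⟩))
      · rw [ha]; simp [hl]
    have h2 : LinearMap.rank (op a s.u (fun k => s.v k)) ≤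
        Module.rank ℂ (Submodule.span ℂ (S : Set E)) := Submodule.rank_mono h1
    have h3 := rank_span_finset_le (R := ℂ) S
    have h4 : S.card ≤ k := by
      refine Finset.card_image_le.trans ?_
      have : (Finset.univ.filter fun l : Fin N => l.val < k).card ≤ (Finset.range k).card :=
        Finset.card_le_card_of_injOn (fun l => l.val) (fun l hl => by
          simp only [Finset.coe_filter, Set.mem_ofPred_eq] at hl
          simpa using hl.2) (fun x _ y _ hxy => Fin.ext hxy)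
      simpa using this
    exact (h2.trans h3).trans (by exact_mod_cast h4)
  refine (sv_le hFr).trans ?_
  refine ContinuousLinearMap.opNorm_le_bound _ hc fun x => ?_
  have h0 : A x = ∑ l, ((s.σ l : ℂ) * inner ℂ (s.v l) x) • s.u l := by
    have := op_apply (fun k => (s.σ k : ℂ)) s.u (fun k => s.v k) x
    rw [s.op_eq] at this
    exact this
  have h1 : F x = ∑ l, (a l * inner ℂ (s.v l) x) • s.u l := op_apply a s.u (fun k => s.v k) x
  have h2 : (A - F) x = ∑ l, (((s.σ l : ℂ) - a l) * inner ℂ (s.v l) x) • s.u l := by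
    rw [_root_.sub_apply, h0, h1, ← Finset.sum_sub_distrib]
    refine Finset.sum_congr rfl fun l _ => ?_
    rw [← sub_smul]
    congr 1
    ring
  have h3 : ‖(A - F) x‖ ^ 2 ≤ (c * ‖x‖) ^ 2 := by
    rw [h2]
    refine (s.bess.sum_le _).trans ?_
    rw [mul_pow, ← s.v.sum_sq_norm_inner_right x, Finset.mul_sum]
    refine Finset.sum_le_sum fun l _ => ?_
    rw [norm_mul, mul_pow]
    refine mul_le_mul_of_nonneg_right ?_ (sq_nonneg _)
    refine pow_le_pow_left₀ (norm_nonneg _) ?_ 2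
    rw [ha]
    simp only
    split_ifs with hl
    · simpa using hc
    · rw [sub_zero, Complex.norm_real, Real.norm_eq_abs, abs_of_nonneg (s.nonneg l)]
      exact h l (not_lt.1 hl)
  exact le_of_sq_le_sq h3 (by positivity)

lemma Svd.sv_lower (s : Svd (A : E →ₗ[ℂ] E) N) (k : Fin N) : s.σ k ≤ sv A k.val := by
  classical
  refine le_sv fun F hF => ?_
  rcases (s.nonneg k).eq_or_lt with h0 | h0
  · rw [← h0]; exact norm_nonneg _
  -- a nonzero vector in the span of `v_0, …, v_k` killed by `F`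
  have hk : k.val + 1 ≤ N := k.isLt
  set g : (Fin (k.val + 1) → ℂ) →ₗ[ℂ] E :=
    ∑ l, (LinearMap.proj l : (Fin (k.val + 1) → ℂ) →ₗ[ℂ] ℂ).smulRight (s.v (Fin.castLE hk l))
    with hg
  have hgapp : ∀ c, g c = ∑ l, c l • s.v (Fin.castLE hk l) := by
    intro c
    rw [hg, LinearMap.sum_apply]
    rfl
  have hginner : ∀ (c : Fin (k.val + 1) → ℂ) (m : Fin N), inner ℂ (s.v m) (g c) =
      if h : m.val < k.val + 1 then c ⟨m.val, h⟩ else 0 := by
    intro c m
    have ho := s.v.orthonormal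
    rw [orthonormal_iff_ite] at ho
    rw [hgapp, inner_sum]
    simp only [inner_smul_right, ho]
    split_ifs with h
    · rw [Finset.sum_eq_single ⟨m.val, h⟩]
      · have : m = Fin.castLE hk ⟨m.val, h⟩ := Fin.ext rfl
        rw [if_pos this, mul_one]
      · intro l _ hl
        have : m ≠ Fin.castLE hk l := fun e => hl (Fin.ext (congrArg Fin.val e).symm)
        rw [if_neg this, mul_zero]
      · intro h; exact absurd (Finset.mem_univ _) h
    · refine Finset.sum_eq_zero fun l _ => ?_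
      have : m ≠ Fin.castLE hk l := fun e => h (by rw [e]; exact l.isLt)
      rw [if_neg this, mul_zero]
  have hnotinj : ¬ Function.Injective ((F : E →ₗ[ℂ] E).comp g) := by
    intro hinj
    have h1 := LinearMap.finrank_range_of_inj hinj
    rw [Module.finrank_fin_fun] at h1
    have h2 : LinearMap.rank ((F : E →ₗ[ℂ] E).comp g) ≤ (k.val : Cardinal) :=
      (LinearMap.rank_comp_le_left _ _).trans hF
    have h3 : Module.finrank ℂ (LinearMap.range ((F : E →ₗ[ℂ] E).comp g)) ≤ k.val :=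
      Module.finrank_le_of_rank_le h2
    omega
  obtain ⟨c, hc1, hc2⟩ : ∃ c, (F : E →ₗ[ℂ] E).comp g c = 0 ∧ c ≠ 0 := by
    by_contra hcon
    push Not at hcon
    exact hnotinj ((injective_iff_map_eq_zero _).2 hcon)
  set x := g c with hx
  have hFx : F x = 0 := hc1
  have hxc : ∀ m : Fin N, k < m → inner ℂ (s.v m) x = 0 := by
    intro m hm
    have : ¬ (m.val < k.val + 1) := by have : k.val < m.val := hm; omega
    rw [hx, hginner, dif_neg this]
  have hx0 : x ≠ 0 := by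
    intro h
    apply hc2
    funext l
    have := hginner c (Fin.castLE hk l)
    rw [← hx, h, inner_zero_right, dif_pos (show (Fin.castLE hk l).val < k.val + 1 from l.isLt)]
      at this
    exact this.symm
  have h1 : (s.σ k * ‖x‖) ^ 2 ≤ ‖A x‖ ^ 2 := by
    refine le_trans ?_ (s.bess (A x))
    rw [mul_pow, ← s.v.sum_sq_norm_inner_right x, Finset.mul_sum]
    refine Finset.sum_le_sum fun m _ => ?_
    rw [s.inner_u_apply, norm_mul, mul_pow, Complex.norm_real, Real.norm_eq_abs,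
      abs_of_nonneg (s.nonneg m)]
    by_cases hm : k < m
    · rw [hxc m hm]; simp
    · exact mul_le_mul_of_nonneg_right (pow_le_pow_left₀ h0.le (s.anti (not_lt.1 hm)) 2)
        (sq_nonneg _)
  have h2 : s.σ k * ‖x‖ ≤ ‖A x‖ := le_of_sq_le_sq h1 (norm_nonneg _)
  have h3 : ‖A x‖ ≤ ‖A - F‖ * ‖x‖ := by
    have := (A - F).le_opNorm x
    rwa [_root_.sub_apply, hFx, sub_zero] at this
  exact le_of_mul_le_mul_right (h2.trans h3) (norm_pos_iff.2 hx0)

lemma Svd.sv_eq (s : Svd (A : E →ₗ[ℂ] E) N) (k : Fin N) : sv A k.val = s.σ k :=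
  le_antisymm (s.sv_upper k.val (s.nonneg k) fun _ hl => s.anti hl) (s.sv_lower k)

lemma Svd.sv_eq_zero (s : Svd (A : E →ₗ[ℂ] E) N) {k : ℕ} (hk : N ≤ k) : sv A k = 0 :=
  le_antisymm (s.sv_upper k le_rfl fun l hl => absurd l.isLt (by omega)) (sv_nonneg _ _)

/-- in finite dimensions the approximation numbers are Mathlib's singular values -/
theorem sv_eq_singularValues (A : E →L[ℂ] E) (k : ℕ) :
    sv A k = (A : E →ₗ[ℂ] E).singularValues k := by
  obtain ⟨s, hs⟩ := exists_svd' (A : E →ₗ[ℂ] E)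
  by_cases h : k < Module.finrank ℂ E
  · rw [← hs ⟨k, h⟩]
    exact s.sv_eq ⟨k, h⟩
  · rw [s.sv_eq_zero (not_lt.1 h), LinearMap.singularValues_of_finrank_le _ (not_lt.1 h)]

lemma Svd.tsum_eq (s : Svd (A : E →ₗ[ℂ] E) N) {p : ℝ} (hp : p ≠ 0) :
    ∑' k, sv A k ^ p = ∑ k, s.σ k ^ p := by
  rw [tsum_eq_sum (s := Finset.range N) (fun k hk => by
    rw [s.sv_eq_zero (not_lt.1 (fun h => hk (Finset.mem_range.2 h))), Real.zero_rpow hp]),
    ← Fin.sum_univ_eq_sum_range (fun k => sv A k ^ p) N]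
  exact Finset.sum_congr rfl fun k _ => by rw [s.sv_eq]

lemma Svd.tsum_eq' {B : E →ₗ[ℂ] E} (s : Svd B N) (h : (A : E →ₗ[ℂ] E) = B) {p : ℝ} (hp : p ≠ 0) :
    ∑' k, sv A k ^ p = ∑ k, s.σ k ^ p := by
  subst h
  exact s.tsum_eq hp

lemma coe_sum_eq {J : Type*} [Fintype J] (c : J → ℂ) (A : J → E →L[ℂ] E) :
    ((∑ j, c j • A j : E →L[ℂ] E) : E →ₗ[ℂ] E) = ∑ j, c j • ((A j : E →L[ℂ] E) : E →ₗ[ℂ] E) := by
  ext x
  simp only [ContinuousLinearMap.coe_coe, ContinuousLinearMap.sum_apply, LinearMap.sum_apply,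
    ContinuousLinearMap.smul_apply, LinearMap.smul_apply]

variable {J I : Type*} [Fintype J] [Fintype I] [DecidableEq J] {T : I → J → ℝ} {n : ℝ}

/-- finite dimensional case, `1 < p ≤ 2`, in terms of `sv` -/
theorem fd_le (A : J → E →L[ℂ] E) (hT1 : ∀ i j, |T i j| ≤ 1)
    (hTT : ∀ j j', ∑ i, T i j * T i j' = if j = j' then n else 0) (hn : 0 ≤ n)
    {p q : ℝ} (hp : 1 < p) (hp2 : p ≤ 2) (hpq : 1 / p + 1 / q = 1) :
    ∑ i, (∑' l, sv (∑ j, (T i j : ℂ) • A j) l ^ p) ^ (q / p) ≤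
      n * (∑ j, ∑' k, sv (A j) k ^ p) ^ (q / p) := by
  have s : ∀ j, Svd ((A j : E →L[ℂ] E) : E →ₗ[ℂ] E) (Module.finrank ℂ E) := fun j =>
    (exists_svd _).some
  have t : ∀ i, Svd (∑ j, (T i j : ℂ) • ((A j : E →L[ℂ] E) : E →ₗ[ℂ] E)) (Module.finrank ℂ E) :=
    fun i => (exists_svd _).some
  have hp0 : p ≠ 0 := by linarith
  have h := fin_le s t hT1 hTT hn hp hp2 hpq
  have h1 : ∀ i, ∑' l, sv (∑ j, (T i j : ℂ) • A j) l ^ p = ∑ l, (t i).σ l ^ p := fun i =>
    (t i).tsum_eq' (coe_sum_eq _ _) hp0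
  have h2 : ∀ j, ∑' k, sv (A j) k ^ p = ∑ k, (s j).σ k ^ p := fun j => (s j).tsum_eq hp0
  simp only [h1, h2]
  exact h

/-- finite dimensional case, `2 ≤ p`, in terms of `sv` -/
theorem fd_ge (A : J → E →L[ℂ] E) (hT1 : ∀ i j, |T i j| ≤ 1)
    (hTT : ∀ j j', ∑ i, T i j * T i j' = if j = j' then n else 0) (hn : 0 < n)
    {p q : ℝ} (hp : 2 ≤ p) (hpq : 1 / p + 1 / q = 1) :
    n * (∑ j, ∑' k, sv (A j) k ^ p) ^ (q / p) ≤
      ∑ i, (∑' l, sv (∑ j, (T i j : ℂ) • A j) l ^ p) ^ (q / p) := by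
  have s : ∀ j, Svd ((A j : E →L[ℂ] E) : E →ₗ[ℂ] E) (Module.finrank ℂ E) := fun j =>
    (exists_svd _).some
  have t : ∀ i, Svd (∑ j, (T i j : ℂ) • ((A j : E →L[ℂ] E) : E →ₗ[ℂ] E)) (Module.finrank ℂ E) :=
    fun i => (exists_svd _).some
  have hp0 : p ≠ 0 := by linarith
  have h := fin_ge s t hT1 hTT hn hp hpq
  have h1 : ∀ i, ∑' l, sv (∑ j, (T i j : ℂ) • A j) l ^ p = ∑ l, (t i).σ l ^ p := fun i =>
    (t i).tsum_eq' (coe_sum_eq _ _) hp0
  have h2 : ∀ j, ∑' k, sv (A j) k ^ p = ∑ k, (s j).σ k ^ p := fun j => (s j).tsum_eq hp0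
  simp only [h1, h2]
  exact h

end Pool.Agent.H159.Clarkson
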