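import Pool.Agent.H159.Clarkson.Bil

set_option autoImplicit false

open scoped BigOperators

namespace Pool.Agent.H159.Clarkson

variable {E : Type*} [NormedAddCommGroup E] [InnerProductSpace ℂ E]
variable {J I κ : Type*} [Fintype J] [Fintype I] [Fintype κ]

/-- the multilinear form -/
noncomputable def form (T : I → J → ℝ) (a : J → κ → ℂ) (b : I → κ → ℂ) (u v : J → κ → E)
    (x y : I → κ → E) : ℂ :=
  ∑ i, ∑ j, (T i j : ℂ) * ∑ k, a j k *
    ∑ l, b i l * (inner ℂ (v j k) (x i l) * inner ℂ (y i l) (u j k))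

lemma form_le_zero {T : I → J → ℝ} (hT1 : ∀ i j, |T i j| ≤ 1) {a : J → κ → ℂ} {b : I → κ → ℂ}
    {u v : J → κ → E} {x y : I → κ → E} (hu : ∀ j, Bess (u j)) (hv : ∀ j, Bess (v j))
    (hx : ∀ i, Bess (x i)) (hy : ∀ i, Bess (y i)) {β : I → ℝ} (hβ : ∀ i, 0 ≤ β i)
    (hb : ∀ i l, ‖b i l‖ ≤ β i) {α : J → κ → ℝ} (ha : ∀ j k, ‖a j k‖ ≤ α j k) :
    ‖form T a b u v x y‖ ≤ (∑ i, β i) * ∑ j, ∑ k, α j k := by
  unfold form
  rw [Finset.sum_mul]
  refine (norm_sum_le _ _).trans (Finset.sum_le_sum fun i _ => ?_)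
  rw [Finset.mul_sum]
  refine (norm_sum_le _ _).trans (Finset.sum_le_sum fun j _ => ?_)
  rw [norm_mul, Complex.norm_real, Real.norm_eq_abs]
  refine (mul_le_of_le_one_left (norm_nonneg _) (hT1 i j)).trans ?_
  rw [Finset.mul_sum]
  refine (norm_sum_le _ _).trans (Finset.sum_le_sum fun k _ => ?_)
  rw [norm_mul, mul_comm (β i)]
  refine mul_le_mul (ha j k) ?_ (norm_nonneg _) ((norm_nonneg _).trans (ha j k))
  have h1 := Bess.pair_le (hx i) (hy i) (v j k) (u j k) (b i) (hβ i) (hb i)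
  refine h1.trans (mul_le_of_le_one_right (hβ i) ?_)
  exact mul_le_one₀ ((hv j).norm_le_one k) (norm_nonneg _) ((hu j).norm_le_one k)

/-- `∑ a_k |u_k⟩⟨v_k|` -/
noncomputable def op (a : κ → ℂ) (u v : κ → E) : E →ₗ[ℂ] E :=
  ∑ k, a k • ((innerSL ℂ (v k)).toLinearMap.smulRight (u k))

lemma op_apply (a : κ → ℂ) (u v : κ → E) (e : E) :
    op a u v e = ∑ k, (a k * inner ℂ (v k) e) • u k := by
  unfold op
  rw [LinearMap.sum_apply]
  refine Finset.sum_congr rfl fun k _ => ?_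
  simp [mul_smul]

lemma hs_op {μ : Type*} [Fintype μ] (e : OrthonormalBasis μ ℂ E) {a : κ → ℂ} {u v : κ → E}
    (hu : Bess u) (hv : Bess v) : ∑ m, ‖op a u v (e m)‖ ^ 2 ≤ ∑ k, ‖a k‖ ^ 2 := by
  calc ∑ m, ‖op a u v (e m)‖ ^ 2 ≤ ∑ m, ∑ k, ‖a k * inner ℂ (v k) (e m)‖ ^ 2 := by
        refine Finset.sum_le_sum fun m _ => ?_
        rw [op_apply]
        exact hu.sum_le _
    _ = ∑ k, ‖a k‖ ^ 2 * ‖v k‖ ^ 2 := by
        rw [Finset.sum_comm]
        refine Finset.sum_congr rfl fun k _ => ?_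
        rw [← e.sum_sq_norm_inner_left (v k), Finset.mul_sum]
        refine Finset.sum_congr rfl fun m _ => ?_
        rw [norm_mul, mul_pow]
    _ ≤ ∑ k, ‖a k‖ ^ 2 := by
        refine Finset.sum_le_sum fun k _ => ?_
        exact mul_le_of_le_one_right (sq_nonneg _) (pow_le_one₀ (norm_nonneg _) (hv.norm_le_one k))

lemma form_eq (T : I → J → ℝ) (a : J → κ → ℂ) (b : I → κ → ℂ)
    (u v : J → κ → E) (x y : I → κ → E) :
    form T a b u v x y = ∑ i, ∑ l, b i l *
      inner ℂ (y i l) ((∑ j, (T i j : ℂ) • op (a j) (u j) (v j)) (x i l)) := by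
  unfold form
  refine Finset.sum_congr rfl fun i _ => ?_
  have h1 : ∀ j ∈ Finset.univ, (T i j : ℂ) * ∑ k, a j k *
      ∑ l, b i l * (inner ℂ (v j k) (x i l) * inner ℂ (y i l) (u j k)) =
      ∑ l, b i l * ((T i j : ℂ) * inner ℂ (y i l) (op (a j) (u j) (v j) (x i l))) := by
    intro j _
    have h2 : ∀ l ∈ Finset.univ, b i l * ((T i j : ℂ) * inner ℂ (y i l)
        (op (a j) (u j) (v j) (x i l))) = ∑ k, (T i j : ℂ) * (a j k *
        (b i l * (inner ℂ (v j k) (x i l) * inner ℂ (y i l) (u j k)))) := by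
      intro l _
      rw [op_apply, inner_sum, Finset.mul_sum, Finset.mul_sum]
      refine Finset.sum_congr rfl fun k _ => ?_
      rw [inner_smul_right]
      ring
    rw [Finset.sum_congr rfl h2, Finset.sum_comm, Finset.mul_sum]
    refine Finset.sum_congr rfl fun k _ => ?_
    rw [Finset.mul_sum, Finset.mul_sum]
  rw [Finset.sum_congr rfl h1, Finset.sum_comm]
  refine Finset.sum_congr rfl fun l _ => ?_
  rw [LinearMap.sum_apply, inner_sum, Finset.mul_sum]
  refine Finset.sum_congr rfl fun j _ => ?_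
  rw [LinearMap.smul_apply, inner_smul_right]

lemma form_le_one [FiniteDimensional ℂ E] {T : I → J → ℝ} {n : ℝ}
    (hT : ∀ w : J → E, ∑ i, ‖∑ j, (T i j : ℂ) • w j‖ ^ 2 ≤ n * ∑ j, ‖w j‖ ^ 2)
    (hn : 0 ≤ n) {a : J → κ → ℂ} {b : I → κ → ℂ}
    {u v : J → κ → E} {x y : I → κ → E} (hu : ∀ j, Bess (u j)) (hv : ∀ j, Bess (v j))
    (hx : ∀ i, Bess (x i)) (hy : ∀ i, Bess (y i)) :
    ‖form T a b u v x y‖ ^ 2 ≤ (∑ i, ∑ l, ‖b i l‖ ^ 2) * (n * ∑ j, ∑ k, ‖a j k‖ ^ 2) := by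
  set C : I → E →ₗ[ℂ] E := fun i => ∑ j, (T i j : ℂ) • op (a j) (u j) (v j) with hC
  have e := stdOrthonormalBasis ℂ E
  have h1 : ‖form T a b u v x y‖ ≤ ∑ i, ∑ l, ‖b i l‖ * ‖C i (x i l)‖ := by
    rw [form_eq]
    refine (norm_sum_le _ _).trans (Finset.sum_le_sum fun i _ => ?_)
    refine (norm_sum_le _ _).trans (Finset.sum_le_sum fun l _ => ?_)
    rw [norm_mul]
    refine mul_le_mul_of_nonneg_left ?_ (norm_nonneg _)
    refine (norm_inner_le_norm _ _).trans ?_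
    exact mul_le_of_le_one_left (norm_nonneg _) ((hy i).norm_le_one l)
  have h2 : (∑ i, ∑ l, ‖b i l‖ * ‖C i (x i l)‖) ^ 2 ≤
      (∑ i, ∑ l, ‖b i l‖ ^ 2) * ∑ i, ∑ l, ‖C i (x i l)‖ ^ 2 := by
    have := Finset.sum_mul_sq_le_sq_mul_sq (Finset.univ : Finset (I × κ))
      (fun z => ‖b z.1 z.2‖) (fun z => ‖C z.1 (x z.1 z.2)‖)
    simpa only [Fintype.sum_prod_type] using this
  have h3 : ∑ i, ∑ l, ‖C i (x i l)‖ ^ 2 ≤ n * ∑ j, ∑ k, ‖a j k‖ ^ 2 := by
    calc ∑ i, ∑ l, ‖C i (x i l)‖ ^ 2 ≤ ∑ i, ∑ m, ‖C i (e m)‖ ^ 2 :=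
          Finset.sum_le_sum fun i _ => hs_le e (C i) (hx i)
      _ = ∑ m, ∑ i, ‖∑ j, (T i j : ℂ) • op (a j) (u j) (v j) (e m)‖ ^ 2 := by
          rw [Finset.sum_comm]
          refine Finset.sum_congr rfl fun m _ => Finset.sum_congr rfl fun i _ => ?_
          rw [hC]
          simp only [LinearMap.sum_apply, LinearMap.smul_apply]
      _ ≤ ∑ m, n * ∑ j, ‖op (a j) (u j) (v j) (e m)‖ ^ 2 :=
          Finset.sum_le_sum fun m _ => hT _
      _ = n * ∑ j, ∑ m, ‖op (a j) (u j) (v j) (e m)‖ ^ 2 := by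
          rw [← Finset.mul_sum, Finset.sum_comm]
      _ ≤ n * ∑ j, ∑ k, ‖a j k‖ ^ 2 :=
          mul_le_mul_of_nonneg_left (Finset.sum_le_sum fun j _ => hs_op e (hu j) (hv j)) hn
  calc ‖form T a b u v x y‖ ^ 2 ≤ (∑ i, ∑ l, ‖b i l‖ * ‖C i (x i l)‖) ^ 2 :=
        pow_le_pow_left₀ (norm_nonneg _) h1 2
    _ ≤ _ := h2
    _ ≤ _ := mul_le_mul_of_nonneg_left h3
      (Finset.sum_nonneg fun _ _ => Finset.sum_nonneg fun _ _ => sq_nonneg _)

/-- the bilinear inequality -/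
theorem bil [FiniteDimensional ℂ E] {T : I → J → ℝ} {n : ℝ} (hT1 : ∀ i j, |T i j| ≤ 1)
    (hT : ∀ w : J → E, ∑ i, ‖∑ j, (T i j : ℂ) • w j‖ ^ 2 ≤ n * ∑ j, ‖w j‖ ^ 2) (hn : 0 ≤ n)
    {p q : ℝ} (hp : 1 < p) (hp2 : p ≤ 2) (hpq : 1 / p + 1 / q = 1)
    {σ : J → κ → ℝ} {τ : I → κ → ℝ} (hσ : ∀ j k, 0 ≤ σ j k) (hτ : ∀ i l, 0 ≤ τ i l)
    {u v : J → κ → E} {x y : I → κ → E} (hu : ∀ j, Bess (u j)) (hv : ∀ j, Bess (v j))
    (hx : ∀ i, Bess (x i)) (hy : ∀ i, Bess (y i)) :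
    ‖form T (fun j k => (σ j k : ℂ)) (fun i l => (τ i l : ℂ)) u v x y‖ ≤
      n ^ (1 / q) * ((∑ i, (∑ l, τ i l ^ q) ^ (p / q)) * ∑ j, ∑ k, σ j k ^ p) ^ (1 / p) := by
  have hp0 : 0 < p := by linarith
  have hq1 : 1 / q = 1 - 1 / p := by linarith
  have hq1' : 0 < 1 / q := by
    rw [hq1]
    have : 1 / p < 1 := by rw [div_lt_one hp0]; exact hp
    linarith
  have hq0 : 0 < q := one_div_pos.1 hq1'
  have hq2 : 2 ≤ q := by
    have h1 : 1 / q ≤ 1 / 2 := by
      rw [hq1]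
      have : 1 / 2 ≤ 1 / p := one_div_le_one_div_of_le hp0 hp2
      linarith
    exact (one_div_le_one_div hq0 (by norm_num)).1 h1
  set β : I → ℝ := fun i => (∑ l, τ i l ^ q) ^ (1 / q) with hβ
  have hsum0 : ∀ i, 0 ≤ ∑ l, τ i l ^ q := fun i =>
    Finset.sum_nonneg fun l _ => Real.rpow_nonneg (hτ i l) _
  have hβ0 : ∀ i, 0 ≤ β i := fun i => Real.rpow_nonneg (hsum0 i) _
  have hβq : ∀ i, β i ^ q = ∑ l, τ i l ^ q := by
    intro i
    rw [hβ]
    simp only
    rw [← Real.rpow_mul (hsum0 i), one_div_mul_cancel hq0.ne', Real.rpow_one]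
  have hβp : ∀ i, β i ^ p = (∑ l, τ i l ^ q) ^ (p / q) := by
    intro i
    rw [hβ]
    simp only
    rw [← Real.rpow_mul (hsum0 i)]
    congr 1
    ring
  simp only [← hβp]
  set B : ℝ := ∑ i, β i ^ p with hB
  set S : ℝ := ∑ j, ∑ k, σ j k ^ p with hS
  have hB0 : 0 ≤ B := Finset.sum_nonneg fun i _ => Real.rpow_nonneg (hβ0 i) _
  have hS0 : 0 ≤ S := Finset.sum_nonneg fun j _ => Finset.sum_nonneg fun k _ =>
    Real.rpow_nonneg (hσ j k) _
  set af : ℂ → J → κ → ℂ := fun z j k => pw (σ j k) ((p : ℂ) + ((-(p / 2) : ℝ) : ℂ) * z) with haf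
  set bf : ℂ → I → κ → ℂ := fun z i l => pw (β i) ((p : ℂ) + ((-(p / 2 + q / 2) : ℝ) : ℂ) * z) *
    pw (τ i l) (((0 : ℝ) : ℂ) + ((q / 2 : ℝ) : ℂ) * z) with hbf
  have hgood : Good fun z => form T (af z) (bf z) u v x y := by
    unfold form
    refine good_sum _ fun i _ => good_sum _ fun j _ => (good_const _).mul ?_
    refine good_sum _ fun k _ => (good_pw (hσ j k) _ _).mul ?_
    refine good_sum _ fun l _ => Good.mul ?_ (good_const _)
    exact (good_pw (hβ0 i) _ _).mul (good_pw (hτ i l) _ _)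
  have hna : ∀ (z : ℂ) j k, ‖af z j k‖ ≤ σ j k ^ (p - p / 2 * z.re) := by
    intro z j k
    refine (norm_pw_le (hσ j k) _).trans (le_of_eq ?_)
    congr 1
    simp
    ring
  have hnb : ∀ (z : ℂ) i l, ‖bf z i l‖ ≤
      β i ^ (p - (p / 2 + q / 2) * z.re) * τ i l ^ (q / 2 * z.re) := by
    intro z i l
    rw [hbf]
    simp only
    rw [norm_mul]
    refine mul_le_mul ((norm_pw_le (hβ0 i) _).trans (le_of_eq ?_))
      ((norm_pw_le (hτ i l) _).trans (le_of_eq ?_)) (norm_nonneg _) (Real.rpow_nonneg (hβ0 i) _)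
    · congr 1
      simp
      ring
    · congr 1
      simp
  have key := three_lines hgood (a := B * S) (b := (n * (B * S)) ^ (1 / 2 : ℝ)) (θ := 2 / q)
    (by positivity) (by rw [div_le_one hq0]; exact hq2) (by
      intro z hz
      refine form_le_zero (β := fun i => β i ^ p) (α := fun j k => σ j k ^ p) hT1 hu hv hx hy
        (fun i => Real.rpow_nonneg (hβ0 i) _) ?_ ?_
      · intro i l
        have := hnb z i l
        rw [hz, mul_zero, mul_zero, sub_zero, Real.rpow_zero, mul_one] at this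
        exact this
      · intro j k
        have := hna z j k
        rw [hz, mul_zero, sub_zero] at this
        exact this) (by
      intro z hz
      have h1 := form_le_one (T := T) (n := n) hT hn (a := af z) (b := bf z) hu hv hx hy
      have h2 : ∑ j, ∑ k, ‖af z j k‖ ^ 2 ≤ S := by
        refine Finset.sum_le_sum fun j _ => Finset.sum_le_sum fun k _ => ?_
        have h3 := hna z j k
        rw [hz, mul_one] at h3
        calc ‖af z j k‖ ^ 2 ≤ (σ j k ^ (p - p / 2)) ^ 2 := pow_le_pow_left₀ (norm_nonneg _) h3 2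
          _ = σ j k ^ p := by
            rw [← Real.rpow_natCast, ← Real.rpow_mul (hσ j k)]
            congr 1
            push_cast
            ring
      have h4 : ∑ i, ∑ l, ‖bf z i l‖ ^ 2 ≤ B := by
        refine Finset.sum_le_sum fun i _ => ?_
        have h5 : ∀ l, ‖bf z i l‖ ^ 2 ≤ β i ^ (p - q) * τ i l ^ q := by
          intro l
          have h3 := hnb z i l
          rw [hz, mul_one, mul_one] at h3
          calc ‖bf z i l‖ ^ 2 ≤ (β i ^ (p - (p / 2 + q / 2)) * τ i l ^ (q / 2)) ^ 2 :=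
                pow_le_pow_left₀ (norm_nonneg _) h3 2
            _ = β i ^ (p - q) * τ i l ^ q := by
              rw [mul_pow, ← Real.rpow_natCast, ← Real.rpow_natCast, ← Real.rpow_mul (hβ0 i),
                ← Real.rpow_mul (hτ i l)]
              congr 2
              · push_cast; ring
              · push_cast; ring
        refine (Finset.sum_le_sum fun l _ => h5 l).trans ?_
        rw [← Finset.mul_sum, ← hβq]
        rcases (hβ0 i).eq_or_lt with h0 | h0
        · rw [← h0, Real.zero_rpow hq0.ne', mul_zero]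
          exact Real.rpow_nonneg le_rfl _
        · rw [← Real.rpow_add h0]
          exact le_of_eq (by congr 1; ring)
      have h6 : ‖form T (af z) (bf z) u v x y‖ ^ 2 ≤ n * (B * S) := by
        refine h1.trans ?_
        calc _ ≤ B * (n * S) := mul_le_mul h4 (mul_le_mul_of_nonneg_left h2 hn)
              (mul_nonneg hn (Finset.sum_nonneg fun _ _ => Finset.sum_nonneg fun _ _ =>
                sq_nonneg _)) hB0
          _ = n * (B * S) := by ring
      rw [← Real.sqrt_eq_rpow]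
      exact Real.le_sqrt_of_sq_le h6)
  have hθ : (1 : ℝ) - 1 / q = 1 / p := by linarith
  have e1 : form T (af ((2 / q : ℝ) : ℂ)) (bf ((2 / q : ℝ) : ℂ)) u v x y =
      form T (fun j k => (σ j k : ℂ)) (fun i l => (τ i l : ℂ)) u v x y := by
    have ea : af ((2 / q : ℝ) : ℂ) = fun j k => (σ j k : ℂ) := by
      funext j k
      rw [haf]
      simp only
      have h7 : (p : ℂ) + ((-(p / 2) : ℝ) : ℂ) * ((2 / q : ℝ) : ℂ) = ((1 : ℝ) : ℂ) := by
        rw [← Complex.ofReal_mul, ← Complex.ofReal_add]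
        congr 1
        have : p * (1 / q) = p - 1 := by rw [hq1]; field_simp
        calc p + -(p / 2) * (2 / q) = p - p * (1 / q) := by ring
          _ = 1 := by rw [this]; ring
      rw [h7, pw_real (hσ j k) one_ne_zero, Real.rpow_one]
    have eb : bf ((2 / q : ℝ) : ℂ) = fun i l => (τ i l : ℂ) := by
      funext i l
      rw [hbf]
      simp only
      have h8 : ((0 : ℝ) : ℂ) + ((q / 2 : ℝ) : ℂ) * ((2 / q : ℝ) : ℂ) = ((1 : ℝ) : ℂ) := by
        rw [← Complex.ofReal_mul, ← Complex.ofReal_add]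
        congr 1
        field_simp
        ring
      have h9 : (p : ℂ) + ((-(p / 2 + q / 2) : ℝ) : ℂ) * ((2 / q : ℝ) : ℂ) = 0 := by
        rw [← Complex.ofReal_mul, ← Complex.ofReal_add, ← Complex.ofReal_zero]
        congr 1
        have : p * (1 / q) = p - 1 := by rw [hq1]; field_simp
        have h10 : q * (1 / q) = 1 := mul_one_div_cancel hq0.ne'
        calc p + -(p / 2 + q / 2) * (2 / q) = p - p * (1 / q) - q * (1 / q) := by ring
          _ = 0 := by rw [this, h10]; ring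
      rw [h8, h9, pw_real (hτ i l) one_ne_zero, Real.rpow_one]
      unfold pw
      split_ifs with h
      · have h11 : ∑ l, τ i l ^ q = 0 := by rw [← hβq, h, Real.zero_rpow hq0.ne']
        have h12 := (Finset.sum_eq_zero_iff_of_nonneg
          (fun l _ => Real.rpow_nonneg (hτ i l) q)).1 h11 l (Finset.mem_univ l)
        have h13 := (Real.rpow_eq_zero (hτ i l) hq0.ne').1 h12
        rw [h13]; simp
      · simp
    rw [ea, eb]
  rw [e1] at key
  refine key.trans (le_of_eq ?_)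
  have hBS : 0 ≤ B * S := mul_nonneg hB0 hS0
  rw [← Real.rpow_mul (mul_nonneg hn hBS), Real.mul_rpow hn hBS]
  have h14 : (1 / 2 : ℝ) * (2 / q) = 1 / q := by ring
  rw [h14]
  have h15 : (B * S) ^ (1 / p) = (B * S) ^ (1 - 2 / q) * (B * S) ^ (1 / q) := by
    rw [← Real.rpow_add' hBS]
    · congr 1
      rw [← hθ]; ring
    · have : (1 - 2 / q + 1 / q : ℝ) = 1 / p := by rw [← hθ]; ring
      rw [this]
      positivity
  rw [h15]
  ring

end Pool.Agent.H159.Clarkson
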