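import Pool.Agent.H159.Clarkson.Svd

set_option autoImplicit false

/-! Singular values of bounded operators, as approximation numbers. -/

open scoped BigOperators
open Filter Topology

namespace Pool.Agent.H159.Clarkson

universe u

variable {H K : Type u} [NormedAddCommGroup H] [InnerProductSpace ℂ H]
  [NormedAddCommGroup K] [InnerProductSpace ℂ K]

/-- `F` has rank at most `k` -/
def RankLe (F : H →L[ℂ] H) (k : ℕ) : Prop := LinearMap.rank (F : H →ₗ[ℂ] H) ≤ (k : Cardinal)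

/-- The `k`-th singular value (`k = 0, 1, 2, …`) of the operator `A`: the distance of `A` from the
operators of rank at most `k`, in the operator norm. -/
noncomputable def sv (A : H →L[ℂ] H) (k : ℕ) : ℝ :=
  ⨅ F : {F : H →L[ℂ] H // RankLe F k}, ‖A - F.1‖

lemma rankLe_zero (k : ℕ) : RankLe (0 : H →L[ℂ] H) k := by
  unfold RankLe
  simp [LinearMap.rank_zero]

lemma RankLe.mono {F : H →L[ℂ] H} {k l : ℕ} (h : RankLe F k) (hkl : k ≤ l) : RankLe F l :=
  le_trans (show LinearMap.rank (F : H →ₗ[ℂ] H) ≤ (k : Cardinal) from h) (by exact_mod_cast hkl)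

lemma RankLe.add {F G : H →L[ℂ] H} {k l : ℕ} (hF : RankLe F k) (hG : RankLe G l) :
    RankLe (F + G) (k + l) := by
  unfold RankLe at *
  have h := LinearMap.rank_add_le (F : H →ₗ[ℂ] H) (G : H →ₗ[ℂ] H)
  push_cast
  exact h.trans (add_le_add hF hG)

lemma RankLe.comp {F : H →L[ℂ] H} {k : ℕ} (hF : RankLe F k) (P : H →L[ℂ] K) (Q : K →L[ℂ] H) :
    RankLe (P ∘L F ∘L Q) k := by
  unfold RankLe at *
  have h1 := LinearMap.rank_comp_le_right ((F : H →ₗ[ℂ] H).comp (Q : K →ₗ[ℂ] H)) (P : H →ₗ[ℂ] K)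
  have h2 := LinearMap.rank_comp_le_left (Q : K →ₗ[ℂ] H) (F : H →ₗ[ℂ] H)
  exact (h1.trans h2).trans hF

instance (k : ℕ) : Nonempty {F : H →L[ℂ] H // RankLe F k} := ⟨⟨0, rankLe_zero k⟩⟩

lemma bdd (A : H →L[ℂ] H) (k : ℕ) :
    BddBelow (Set.range fun F : {F : H →L[ℂ] H // RankLe F k} => ‖A - F.1‖) :=
  ⟨0, by rintro _ ⟨F, rfl⟩; exact norm_nonneg _⟩

lemma sv_nonneg (A : H →L[ℂ] H) (k : ℕ) : 0 ≤ sv A k := Real.iInf_nonneg fun _ => norm_nonneg _

lemma sv_le {A F : H →L[ℂ] H} {k : ℕ} (hF : RankLe F k) : sv A k ≤ ‖A - F‖ :=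
  ciInf_le (bdd A k) ⟨F, hF⟩

lemma le_sv {A : H →L[ℂ] H} {k : ℕ} {c : ℝ} (h : ∀ F, RankLe F k → c ≤ ‖A - F‖) : c ≤ sv A k :=
  le_ciInf fun F => h F.1 F.2

lemma exists_lt_sv (A : H →L[ℂ] H) (k : ℕ) {c : ℝ} (hc : sv A k < c) :
    ∃ F, RankLe F k ∧ ‖A - F‖ < c := by
  obtain ⟨F, hF⟩ := exists_lt_of_ciInf_lt hc
  exact ⟨F.1, F.2, hF⟩

lemma sv_anti (A : H →L[ℂ] H) : Antitone (sv A) := by
  intro k l hkl
  exact le_sv fun F hF => sv_le (hF.mono hkl)

lemma sv_zero_le (A : H →L[ℂ] H) : sv A 0 ≤ ‖A‖ := by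
  have := sv_le (A := A) (rankLe_zero 0)
  simpa using this

lemma sv_add (A B : H →L[ℂ] H) (k l : ℕ) : sv (A + B) (k + l) ≤ sv A k + sv B l := by
  refine le_of_forall_pos_le_add fun ε hε => ?_
  obtain ⟨F, hF, h1⟩ := exists_lt_sv A k (lt_add_of_pos_right (sv A k) (half_pos hε))
  obtain ⟨G, hG, h2⟩ := exists_lt_sv B l (lt_add_of_pos_right (sv B l) (half_pos hε))
  have h3 := sv_le (A := A + B) (hF.add hG)
  have h4 : A + B - (F + G) = (A - F) + (B - G) := by abel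
  rw [h4] at h3
  have h5 := norm_add_le (A - F) (B - G)
  linarith

lemma sv_le_add_norm (A B : H →L[ℂ] H) (k : ℕ) : sv A k ≤ sv B k + ‖A - B‖ := by
  have h := sv_add B (A - B) k 0
  rw [add_sub_cancel, add_zero] at h
  have := sv_zero_le (A - B)
  linarith

lemma sv_comp_le (A : H →L[ℂ] H) {P : H →L[ℂ] K} {Q : K →L[ℂ] H} (hP : ‖P‖ ≤ 1) (hQ : ‖Q‖ ≤ 1)
    (k : ℕ) : sv (P ∘L A ∘L Q) k ≤ sv A k := by
  refine le_sv fun F hF => (sv_le (hF.comp P Q)).trans ?_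
  have h1 : P ∘L A ∘L Q - P ∘L F ∘L Q = P ∘L (A - F) ∘L Q := by
    ext x; simp
  rw [h1]
  calc ‖P ∘L (A - F) ∘L Q‖ ≤ ‖P‖ * ‖(A - F) ∘L Q‖ := ContinuousLinearMap.opNorm_comp_le _ _
    _ ≤ 1 * (‖A - F‖ * ‖Q‖) := mul_le_mul hP (ContinuousLinearMap.opNorm_comp_le _ _)
        (norm_nonneg _) zero_le_one
    _ ≤ ‖A - F‖ := by
        rw [one_mul]; exact mul_le_of_le_one_right (norm_nonneg _) hQ

lemma sv_zero (k : ℕ) : sv (0 : H →L[ℂ] H) k = 0 := by
  refine le_antisymm ?_ (sv_nonneg _ _)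
  have := sv_le (A := (0 : H →L[ℂ] H)) (rankLe_zero k)
  simpa using this

lemma sv_smul_le (c : ℂ) (A : H →L[ℂ] H) (k : ℕ) : sv (c • A) k ≤ ‖c‖ * sv A k := by
  by_cases hc : c = 0
  · subst hc; rw [zero_smul, sv_zero]; simp
  have hc' : 0 < ‖c‖ := norm_pos_iff.2 hc
  rw [← div_le_iff₀' hc']
  refine le_sv fun F hF => ?_
  rw [div_le_iff₀' hc']
  have h1 : RankLe (c • F) k := by
    have := hF.comp (ContinuousLinearMap.id ℂ H) (c • ContinuousLinearMap.id ℂ H)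
    have e : (ContinuousLinearMap.id ℂ H) ∘L F ∘L (c • ContinuousLinearMap.id ℂ H) = c • F := by
      ext x; simp
    rwa [e] at this
  refine (sv_le h1).trans ?_
  rw [← smul_sub, norm_smul]

/-! ### Schatten classes -/

/-- the Schatten class `S_p` -/
def InSp (p : ℝ) (A : H →L[ℂ] H) : Prop := Summable fun k => sv A k ^ p

/-- the Schatten `p`-norm -/
noncomputable def sn (p : ℝ) (A : H →L[ℂ] H) : ℝ := (∑' k, sv A k ^ p) ^ (1 / p)

lemma inSp_zero {p : ℝ} (hp : 0 < p) : InSp p (0 : H →L[ℂ] H) := by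
  unfold InSp
  simp only [sv_zero, Real.zero_rpow hp.ne']
  exact summable_zero

lemma add_rpow_le {a b p : ℝ} (ha : 0 ≤ a) (hb : 0 ≤ b) (hp : 0 ≤ p) :
    (a + b) ^ p ≤ 2 ^ p * (a ^ p + b ^ p) := by
  have h1 : a + b ≤ 2 * max a b := by linarith [le_max_left a b, le_max_right a b]
  have h2 : 0 ≤ max a b := ha.trans (le_max_left a b)
  calc (a + b) ^ p ≤ (2 * max a b) ^ p := Real.rpow_le_rpow (by positivity) h1 hp
    _ = 2 ^ p * (max a b) ^ p := Real.mul_rpow (by norm_num) h2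
    _ ≤ 2 ^ p * (a ^ p + b ^ p) := by
        refine mul_le_mul_of_nonneg_left ?_ (by positivity)
        rcases max_choice a b with h | h <;> rw [h]
        · linarith [Real.rpow_nonneg hb p]
        · linarith [Real.rpow_nonneg ha p]

lemma InSp.add {p : ℝ} (hp : 0 < p) {A B : H →L[ℂ] H} (hA : InSp p A) (hB : InSp p B) :
    InSp p (A + B) := by
  unfold InSp at *
  have hd : Summable fun k => 2 ^ p * (sv A k ^ p + sv B k ^ p) := (hA.add hB).mul_left _
  have h0 : ∀ k, sv (A + B) (2 * k) ^ p ≤ 2 ^ p * (sv A k ^ p + sv B k ^ p) := by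
    intro k
    refine le_trans ?_ (add_rpow_le (sv_nonneg A k) (sv_nonneg B k) hp.le)
    refine Real.rpow_le_rpow (sv_nonneg _ _) ?_ hp.le
    rw [two_mul]
    exact sv_add A B k k
  have h1 : Summable fun k => sv (A + B) (2 * k) ^ p :=
    Summable.of_nonneg_of_le (fun k => Real.rpow_nonneg (sv_nonneg _ _) _) h0 hd
  have h2 : Summable fun k => sv (A + B) (2 * k + 1) ^ p :=
    Summable.of_nonneg_of_le (fun k => Real.rpow_nonneg (sv_nonneg _ _) _)
      (fun k => Real.rpow_le_rpow (sv_nonneg _ _) (sv_anti _ (Nat.le_succ _)) hp.le) h1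
  exact (h1.hasSum.even_add_odd h2.hasSum).summable

lemma InSp.smul {p : ℝ} (hp : 0 < p) {A : H →L[ℂ] H} (hA : InSp p A) (c : ℂ) :
    InSp p (c • A) := by
  unfold InSp at *
  refine Summable.of_nonneg_of_le (fun k => Real.rpow_nonneg (sv_nonneg _ _) _) (fun k => ?_)
    (hA.mul_left (‖c‖ ^ p))
  rw [← Real.mul_rpow (norm_nonneg _) (sv_nonneg _ _)]
  exact Real.rpow_le_rpow (sv_nonneg _ _) (sv_smul_le c A k) hp.le

lemma inSp_sum {J : Type*} (s : Finset J) {p : ℝ} (hp : 0 < p) {A : J → H →L[ℂ] H}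
    (hA : ∀ j ∈ s, InSp p (A j)) : InSp p (∑ j ∈ s, A j) := by
  classical
  induction s using Finset.induction_on with
  | empty => simpa using inSp_zero hp
  | insert a s ha ih =>
    rw [Finset.sum_insert ha]
    exact InSp.add hp (hA a (Finset.mem_insert_self a s))
      (ih fun j hj => hA j (Finset.mem_insert_of_mem hj))

lemma InSp.tendsto {p : ℝ} (hp : 0 < p) {A : H →L[ℂ] H} (hA : InSp p A) :
    Tendsto (sv A) atTop (𝓝 0) := by
  have h1 := hA.tendsto_atTop_zero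
  have h2 : Tendsto (fun k => (sv A k ^ p) ^ (1 / p)) atTop (𝓝 ((0 : ℝ) ^ (1 / p))) :=
    h1.rpow_const (Or.inr (by positivity))
  rw [Real.zero_rpow (by positivity)] at h2
  refine h2.congr fun k => ?_
  rw [← Real.rpow_mul (sv_nonneg _ _), mul_one_div_cancel hp.ne', Real.rpow_one]

end Pool.Agent.H159.Clarkson
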