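import Pool.Agent.H159.Clarkson.Main

set_option autoImplicit false

open scoped BigOperators

namespace Pool.Agent.H159.Clarkson

variable {E : Type*} [NormedAddCommGroup E] [InnerProductSpace ℂ E]

/-- a singular value decomposition of a linear map -/
structure Svd (A : E →ₗ[ℂ] E) (N : ℕ) where
  σ : Fin N → ℝ
  u : Fin N → E
  v : OrthonormalBasis (Fin N) ℂ E
  anti : Antitone σ
  nonneg : ∀ k, 0 ≤ σ k
  apply : ∀ k, A (v k) = (σ k : ℂ) • u k
  norm_u : ∀ k, σ k ≠ 0 → ‖u k‖ = 1
  u_zero : ∀ k, σ k = 0 → u k = 0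
  orth : ∀ k l, k ≠ l → inner ℂ (u k) (u l) = 0

lemma exists_svd' [FiniteDimensional ℂ E] (A : E →ₗ[ℂ] E) :
    ∃ s : Svd A (Module.finrank ℂ E), ∀ k : Fin (Module.finrank ℂ E),
      s.σ k = A.singularValues k.val := by
  have hT := A.isSymmetric_adjoint_comp_self
  have hP := A.isPositive_adjoint_comp_self
  set v := hT.eigenvectorBasis rfl with hv
  set ev := hT.eigenvalues rfl with hev
  have hnn : ∀ k, 0 ≤ ev k := fun k => hP.nonneg_eigenvalues rfl k
  have happ : ∀ k, (LinearMap.adjoint A) (A (v k)) = (ev k : ℂ) • v k := fun k =>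
    hT.apply_eigenvectorBasis rfl k
  have hinner : ∀ k l, inner ℂ (A (v k)) (A (v l)) = if k = l then (ev k : ℂ) else 0 := by
    intro k l
    rw [← LinearMap.adjoint_inner_left, happ, inner_smul_left, Complex.conj_ofReal]
    have := v.orthonormal
    rw [orthonormal_iff_ite] at this
    rw [this k l]
    split_ifs <;> simp
  have hnorm : ∀ k, ‖A (v k)‖ ^ 2 = ev k := by
    intro k
    have h1 := hinner k k
    rw [if_pos rfl, inner_self_eq_norm_sq_to_K] at h1
    have h2 : ((‖A (v k)‖ ^ 2 : ℝ) : ℂ) = (ev k : ℂ) := by push_cast; exact h1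
    exact Complex.ofReal_injective h2
  refine ⟨⟨fun k => Real.sqrt (ev k), fun k => ((Real.sqrt (ev k))⁻¹ : ℂ) • A (v k), v, ?_, ?_,
    ?_, ?_, ?_, ?_⟩, fun k => (A.singularValues_fin rfl k).symm⟩
  · intro i j hij
    exact Real.sqrt_le_sqrt (hT.eigenvalues_antitone rfl hij)
  · intro k; exact Real.sqrt_nonneg _
  · intro k
    by_cases h : Real.sqrt (ev k) = 0
    · have h1 : ev k = 0 := (Real.sqrt_eq_zero (hnn k)).1 h
      have h2 : A (v k) = 0 := by
        have := hnorm k
        rw [h1] at this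
        exact norm_eq_zero.1 (by nlinarith [norm_nonneg (A (v k))])
      rw [h2]; simp
    · rw [smul_smul]
      have : ((Real.sqrt (ev k) : ℝ) : ℂ) * ((Real.sqrt (ev k) : ℝ) : ℂ)⁻¹ = 1 :=
        mul_inv_cancel₀ (by exact_mod_cast h)
      rw [this, one_smul]
  · intro k h
    rw [norm_smul, norm_inv, Complex.norm_real, Real.norm_eq_abs, abs_of_nonneg (Real.sqrt_nonneg _)]
    have h3 : ‖A (v k)‖ = Real.sqrt (ev k) := by
      rw [← hnorm k, Real.sqrt_sq (norm_nonneg _)]
    rw [h3]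
    exact inv_mul_cancel₀ h
  · intro k h
    rw [h]; simp
  · intro k l hkl
    rw [inner_smul_left, inner_smul_right, hinner k l, if_neg hkl]
    simp

lemma exists_svd [FiniteDimensional ℂ E] (A : E →ₗ[ℂ] E) :
    Nonempty (Svd A (Module.finrank ℂ E)) := ⟨(exists_svd' A).choose⟩

namespace Svd

variable {A : E →ₗ[ℂ] E} {N : ℕ} (s : Svd A N)

include s

lemma bess : Bess s.u := bess_of_orth (fun k => by
  by_cases h : s.σ k = 0
  · rw [s.u_zero k h]; simp
  · rw [s.norm_u k h]) s.orth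

lemma bessv : Bess (fun k => s.v k) := bess_onb s.v

lemma op_eq : op (fun k => (s.σ k : ℂ)) s.u (fun k => s.v k) = A := by
  refine s.v.toBasis.ext fun k => ?_
  rw [OrthonormalBasis.coe_toBasis, s.apply, op_apply, Finset.sum_eq_single k]
  · have : inner ℂ (s.v k) (s.v k) = 1 := by
      rw [inner_self_eq_norm_sq_to_K, s.v.norm_eq_one]; simp
    rw [this, mul_one]
  · intro l _ hl
    have := s.v.orthonormal
    rw [orthonormal_iff_ite] at this
    rw [this l k, if_neg hl]
    simp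
  · intro h; exact absurd (Finset.mem_univ k) h

lemma inner_apply (k : Fin N) : inner ℂ (s.u k) (A (s.v k)) = (s.σ k : ℂ) := by
  rw [s.apply, inner_smul_right]
  by_cases h : s.σ k = 0
  · rw [h]; simp
  · rw [inner_self_eq_norm_sq_to_K, s.norm_u k h]; simp

end Svd

variable {J I : Type*} [Fintype J] [Fintype I] [DecidableEq J]

section
variable {T : I → J → ℝ} {n : ℝ}

lemma hTsq (hTT : ∀ j j', ∑ i, T i j * T i j' = if j = j' then n else 0) (w : J → E) :
    ∑ i, ‖∑ j, (T i j : ℂ) • w j‖ ^ 2 ≤ n * ∑ j, ‖w j‖ ^ 2 := by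
  apply le_of_eq
  have h1 : ((∑ i, ‖∑ j, (T i j : ℂ) • w j‖ ^ 2 : ℝ) : ℂ) = ((n * ∑ j, ‖w j‖ ^ 2 : ℝ) : ℂ) := by
    have h2 : ∀ x : E, (((‖x‖ ^ 2 : ℝ)) : ℂ) = inner ℂ x x := by
      intro x; rw [inner_self_eq_norm_sq_to_K]; push_cast; rfl
    rw [Complex.ofReal_sum, Complex.ofReal_mul, Complex.ofReal_sum]
    simp only [h2]
    have h3 : ∀ i ∈ Finset.univ, inner ℂ (∑ j, (T i j : ℂ) • w j) (∑ j, (T i j : ℂ) • w j) =
        ∑ j, ∑ j', ((T i j * T i j' : ℝ) : ℂ) * inner ℂ (w j) (w j') := by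
      intro i _
      rw [sum_inner]
      refine Finset.sum_congr rfl fun j _ => ?_
      rw [inner_sum]
      refine Finset.sum_congr rfl fun j' _ => ?_
      rw [inner_smul_left, inner_smul_right, Complex.conj_ofReal]
      push_cast
      ring
    rw [Finset.sum_congr rfl h3, Finset.sum_comm, Finset.mul_sum]
    refine Finset.sum_congr rfl fun j _ => ?_
    rw [Finset.sum_comm, Finset.sum_eq_single j]
    · rw [← Finset.sum_mul, ← Complex.ofReal_sum, hTT j j, if_pos rfl]
    · intro j' _ hj'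
      rw [← Finset.sum_mul, ← Complex.ofReal_sum, hTT j j', if_neg (Ne.symm hj')]
      simp
    · intro h; exact absurd (Finset.mem_univ j) h
  exact Complex.ofReal_injective h1

variable [FiniteDimensional ℂ E] {N : ℕ} {A : J → E →ₗ[ℂ] E}
variable (s : ∀ j, Svd (A j) N) (t : ∀ i, Svd (∑ j, (T i j : ℂ) • A j) N)

/-- the finite dimensional case, `1 < p ≤ 2` -/
theorem fin_le (hT1 : ∀ i j, |T i j| ≤ 1)
    (hTT : ∀ j j', ∑ i, T i j * T i j' = if j = j' then n else 0) (hn : 0 ≤ n)
    {p q : ℝ} (hp : 1 < p) (hp2 : p ≤ 2) (hpq : 1 / p + 1 / q = 1) :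
    ∑ i, (∑ l, (t i).σ l ^ p) ^ (q / p) ≤ n * (∑ j, ∑ k, (s j).σ k ^ p) ^ (q / p) := by
  have hp0 : 0 < p := by linarith
  have hq1 : 1 / q = 1 - 1 / p := by linarith
  have hq1' : 0 < 1 / q := by
    rw [hq1]
    have : 1 / p < 1 := by rw [div_lt_one hp0]; exact hp
    linarith
  have hq0 : 0 < q := one_div_pos.1 hq1'
  have hpq' : p + q = p * q := by field_simp at hpq; linarith
  set G : I → ℝ := fun i => ∑ l, (t i).σ l ^ p with hG
  have hG0 : ∀ i, 0 ≤ G i := fun i => Finset.sum_nonneg fun l _ =>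
    Real.rpow_nonneg ((t i).nonneg l) _
  set S : ℝ := ∑ j, ∑ k, (s j).σ k ^ p with hS
  have hS0 : 0 ≤ S := Finset.sum_nonneg fun j _ => Finset.sum_nonneg fun k _ =>
    Real.rpow_nonneg ((s j).nonneg k) _
  set R : ℝ := ∑ i, G i ^ (q / p) with hR
  have hR0 : 0 ≤ R := Finset.sum_nonneg fun i _ => Real.rpow_nonneg (hG0 i) _
  set τ : I → Fin N → ℝ := fun i l => G i ^ ((q - p) / p) * (t i).σ l ^ (p - 1) with hτ
  have hτ0 : ∀ i l, 0 ≤ τ i l := fun i l => mul_nonneg (Real.rpow_nonneg (hG0 i) _)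
    (Real.rpow_nonneg ((t i).nonneg l) _)
  have hb := bil (E := E) hT1 (hTsq hTT) hn hp hp2 hpq (σ := fun j k => (s j).σ k) (τ := τ)
    (fun j k => (s j).nonneg k) hτ0 (u := fun j => (s j).u) (v := fun j k => (s j).v k)
    (x := fun i l => (t i).v l) (y := fun i => (t i).u) (fun j => (s j).bess)
    (fun j => (s j).bessv) (fun i => (t i).bessv) (fun i => (t i).bess)
  -- the left side
  have e1 : form T (fun j k => ((s j).σ k : ℂ)) (fun i l => (τ i l : ℂ)) (fun j => (s j).u)
      (fun j k => (s j).v k) (fun i l => (t i).v l) (fun i => (t i).u) = (R : ℂ) := by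
    rw [form_eq, hR, Complex.ofReal_sum]
    refine Finset.sum_congr rfl fun i _ => ?_
    have h1 : ∑ j, (T i j : ℂ) • op (fun k => ((s j).σ k : ℂ)) (s j).u (fun k => (s j).v k) =
        ∑ j, (T i j : ℂ) • A j := Finset.sum_congr rfl fun j _ => by rw [(s j).op_eq]
    have h2 : ∀ l ∈ Finset.univ, (τ i l : ℂ) * inner ℂ ((t i).u l)
        ((∑ j, (T i j : ℂ) • op (fun k => ((s j).σ k : ℂ)) (s j).u (fun k => (s j).v k))
          ((t i).v l)) = ((G i ^ ((q - p) / p) * (t i).σ l ^ p : ℝ) : ℂ) := by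
      intro l _
      rw [h1, (t i).inner_apply, hτ, ← Complex.ofReal_mul]
      congr 1
      simp only
      rw [mul_assoc]
      congr 1
      have := Real.rpow_add' ((t i).nonneg l) (y := p - 1) (z := 1) (by linarith)
      rw [Real.rpow_one] at this
      rw [← this]
      congr 1
      ring
    rw [Finset.sum_congr rfl h2, ← Complex.ofReal_sum, ← Finset.mul_sum]
    congr 1
    change G i ^ ((q - p) / p) * G i = G i ^ (q / p)
    have h3 := Real.rpow_add' (hG0 i) (y := (q - p) / p) (z := 1) (by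
      have : (q - p) / p + 1 = q / p := by field_simp; ring
      rw [this]; positivity)
    rw [Real.rpow_one] at h3
    rw [← h3]
    congr 1
    field_simp
    ring
  have e2 : ∑ i, (∑ l, τ i l ^ q) ^ (p / q) = R := by
    refine Finset.sum_congr rfl fun i _ => ?_
    have h1 : ∀ l ∈ Finset.univ, τ i l ^ q = G i ^ ((q - p) / p * q) * (t i).σ l ^ p := by
      intro l _
      rw [hτ]
      simp only
      rw [Real.mul_rpow (Real.rpow_nonneg (hG0 i) _) (Real.rpow_nonneg ((t i).nonneg l) _),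
        ← Real.rpow_mul (hG0 i), ← Real.rpow_mul ((t i).nonneg l)]
      congr 2
      linarith
    rw [Finset.sum_congr rfl h1, ← Finset.mul_sum]
    change (G i ^ ((q - p) / p * q) * G i) ^ (p / q) = G i ^ (q / p)
    have hpq2 : p / q = p - 1 := by field_simp; linarith
    have hpq3 : q / p = q - 1 := by field_simp; linarith
    rw [Real.mul_rpow (Real.rpow_nonneg (hG0 i) _) (hG0 i), ← Real.rpow_mul (hG0 i)]
    have h4 : (q - p) / p * q * (p / q) = q - p := by field_simp
    rw [h4, ← Real.rpow_add' (hG0 i)]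
    · congr 1
      rw [hpq2, hpq3]; ring
    · rw [hpq2]
      have : q - p + (p - 1) = q / p := by rw [hpq3]; ring
      rw [this]; positivity
  rw [e1, e2, Complex.norm_real, Real.norm_eq_abs, abs_of_nonneg hR0] at hb
  rcases hR0.eq_or_lt with h0 | h0
  · rw [← h0]; positivity
  · have h5 : R ^ (1 / q) ≤ n ^ (1 / q) * S ^ (1 / p) := by
      rw [Real.mul_rpow hR0 hS0] at hb
      have h6 : R = R ^ (1 / q) * R ^ (1 / p) := by
        rw [← Real.rpow_add h0]
        have : 1 / q + 1 / p = 1 := by linarith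
        rw [this, Real.rpow_one]
      have h7 : 0 < R ^ (1 / p) := Real.rpow_pos_of_pos h0 _
      have h8 : R ^ (1 / q) * R ^ (1 / p) ≤ (n ^ (1 / q) * S ^ (1 / p)) * R ^ (1 / p) := by
        rw [← h6]
        calc R ≤ _ := hb
          _ = _ := by ring
      exact le_of_mul_le_mul_right h8 h7
    have h9 : (R ^ (1 / q)) ^ q ≤ (n ^ (1 / q) * S ^ (1 / p)) ^ q :=
      Real.rpow_le_rpow (Real.rpow_nonneg hR0 _) h5 hq0.le
    rw [← Real.rpow_mul hR0, one_div_mul_cancel hq0.ne', Real.rpow_one,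
      Real.mul_rpow (Real.rpow_nonneg hn _) (Real.rpow_nonneg hS0 _), ← Real.rpow_mul hn,
      one_div_mul_cancel hq0.ne', Real.rpow_one, ← Real.rpow_mul hS0] at h9
    refine h9.trans (le_of_eq ?_)
    congr 2
    ring

/-- the finite dimensional case, `2 ≤ p` -/
theorem fin_ge (hT1 : ∀ i j, |T i j| ≤ 1)
    (hTT : ∀ j j', ∑ i, T i j * T i j' = if j = j' then n else 0) (hn : 0 < n)
    {p q : ℝ} (hp : 2 ≤ p) (hpq : 1 / p + 1 / q = 1) :
    n * (∑ j, ∑ k, (s j).σ k ^ p) ^ (q / p) ≤ ∑ i, (∑ l, (t i).σ l ^ p) ^ (q / p) := by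
  have hp0 : 0 < p := by linarith
  have hq1 : 1 / q = 1 - 1 / p := by linarith
  have hp1 : 1 / p ≤ 1 / 2 := one_div_le_one_div_of_le (by norm_num) hp
  have hp1' : 0 < 1 / p := by positivity
  have hq1' : 0 < 1 / q := by rw [hq1]; linarith
  have hq0 : 0 < q := one_div_pos.1 hq1'
  have hq2 : q ≤ 2 := by
    have : 1 / 2 ≤ 1 / q := by rw [hq1]; linarith
    exact (one_div_le_one_div (by norm_num) hq0).1 this
  have hq3 : 1 < q := by
    have : 1 / q < 1 / 1 := by rw [hq1]; linarith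
    exact (one_div_lt_one_div hq0 one_pos).1 this
  have hpq' : p + q = p * q := by field_simp at hpq; linarith
  set S : ℝ := ∑ j, ∑ k, (s j).σ k ^ p with hS
  have hS0 : 0 ≤ S := Finset.sum_nonneg fun j _ => Finset.sum_nonneg fun k _ =>
    Real.rpow_nonneg ((s j).nonneg k) _
  set R : ℝ := ∑ i, (∑ l, (t i).σ l ^ p) ^ (q / p) with hR
  have hR0 : 0 ≤ R := Finset.sum_nonneg fun i _ => Real.rpow_nonneg
    (Finset.sum_nonneg fun l _ => Real.rpow_nonneg ((t i).nonneg l) _) _
  have hb := bil (E := E) hT1 (hTsq hTT) hn.le hq3 hq2 (p := q) (q := p) (by linarith)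
    (σ := fun j k => (s j).σ k ^ (p - 1)) (τ := fun i l => (t i).σ l)
    (fun j k => Real.rpow_nonneg ((s j).nonneg k) _) (fun i l => (t i).nonneg l)
    (u := fun j k => (s j).v k) (v := fun j => (s j).u)
    (x := fun i => (t i).u) (y := fun i l => (t i).v l) (fun j => (s j).bessv)
    (fun j => (s j).bess) (fun i => (t i).bess) (fun i => (t i).bessv)
  have e1 : form T (fun j k => (((s j).σ k ^ (p - 1) : ℝ) : ℂ)) (fun i l => ((t i).σ l : ℂ))
      (fun j k => (s j).v k) (fun j => (s j).u) (fun i => (t i).u) (fun i l => (t i).v l) =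
      ((n * S : ℝ) : ℂ) := by
    unfold form
    have h1 : ∀ i j k, ∑ l, ((t i).σ l : ℂ) * (inner ℂ ((s j).u k) ((t i).u l) *
        inner ℂ ((t i).v l) ((s j).v k)) =
        inner ℂ ((s j).u k) ((∑ j', (T i j' : ℂ) • A j') ((s j).v k)) := by
      intro i j k
      conv_rhs => rw [← (t i).op_eq, op_apply, inner_sum]
      refine Finset.sum_congr rfl fun l _ => ?_
      rw [inner_smul_right]
      ring
    simp only [h1]
    rw [Finset.sum_comm, Complex.ofReal_mul, hS, Complex.ofReal_sum, Finset.mul_sum]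
    refine Finset.sum_congr rfl fun j _ => ?_
    simp only [Finset.mul_sum]
    rw [Finset.sum_comm, Complex.ofReal_sum, Finset.mul_sum]
    refine Finset.sum_congr rfl fun k _ => ?_
    have h2 : ∑ i, (T i j : ℂ) * ((((s j).σ k ^ (p - 1) : ℝ) : ℂ) *
        inner ℂ ((s j).u k) ((∑ j', (T i j' : ℂ) • A j') ((s j).v k))) =
        (((s j).σ k ^ (p - 1) : ℝ) : ℂ) * ∑ j', (∑ i, ((T i j * T i j' : ℝ) : ℂ)) *
          inner ℂ ((s j).u k) (A j' ((s j).v k)) := by
      rw [Finset.mul_sum]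
      simp only [Finset.sum_mul, Finset.mul_sum]
      rw [Finset.sum_comm]
      refine Finset.sum_congr rfl fun i _ => ?_
      rw [LinearMap.sum_apply, inner_sum, Finset.mul_sum, Finset.mul_sum]
      refine Finset.sum_congr rfl fun j' _ => ?_
      rw [LinearMap.smul_apply, inner_smul_right]
      push_cast
      ring
    rw [h2, Finset.sum_eq_single j]
    · rw [← Complex.ofReal_sum, hTT j j, if_pos rfl, (s j).inner_apply, ← Complex.ofReal_mul,
        ← Complex.ofReal_mul, ← Complex.ofReal_mul]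
      congr 1
      have := Real.rpow_add' ((s j).nonneg k) (y := p - 1) (z := 1) (by linarith)
      rw [Real.rpow_one] at this
      have h3 : p - 1 + 1 = p := by ring
      rw [h3] at this
      rw [this]
      ring
    · intro j' _ hj'
      rw [← Complex.ofReal_sum, hTT j j', if_neg (Ne.symm hj')]
      simp
    · intro h; exact absurd (Finset.mem_univ j) h
  have e2 : ∑ j, ∑ k, ((s j).σ k ^ (p - 1)) ^ q = S := by
    refine Finset.sum_congr rfl fun j _ => Finset.sum_congr rfl fun k _ => ?_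
    rw [← Real.rpow_mul ((s j).nonneg k)]
    congr 1
    linarith
  rw [e1, e2, Complex.norm_real, Real.norm_eq_abs, abs_of_nonneg (mul_nonneg hn.le hS0)] at hb
  rcases hS0.eq_or_lt with h0 | h0
  · rw [← h0, Real.zero_rpow (by positivity), mul_zero]; exact hR0
  · rw [Real.mul_rpow hR0 hS0] at hb
    have h5 : n ^ (1 / q) * S ^ (1 / p) ≤ R ^ (1 / q) := by
      have h6 : S = S ^ (1 / p) * S ^ (1 / q) := by
        rw [← Real.rpow_add h0, hpq, Real.rpow_one]
      have h6' : n = n ^ (1 / q) * n ^ (1 / p) := by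
        rw [← Real.rpow_add hn]
        have : 1 / q + 1 / p = 1 := by linarith
        rw [this, Real.rpow_one]
      have h7 : 0 < S ^ (1 / q) * n ^ (1 / p) :=
        mul_pos (Real.rpow_pos_of_pos h0 _) (Real.rpow_pos_of_pos hn _)
      have h8 : (n ^ (1 / q) * S ^ (1 / p)) * (S ^ (1 / q) * n ^ (1 / p)) ≤
          R ^ (1 / q) * (S ^ (1 / q) * n ^ (1 / p)) := by
        calc _ = (n ^ (1 / q) * n ^ (1 / p)) * (S ^ (1 / p) * S ^ (1 / q)) := by ring
          _ = n * S := by rw [← h6, ← h6']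
          _ ≤ _ := hb
          _ = _ := by ring
      exact le_of_mul_le_mul_right h8 h7
    have h9 : (n ^ (1 / q) * S ^ (1 / p)) ^ q ≤ (R ^ (1 / q)) ^ q :=
      Real.rpow_le_rpow (by positivity) h5 hq0.le
    rw [← Real.rpow_mul hR0, one_div_mul_cancel hq0.ne', Real.rpow_one,
      Real.mul_rpow (Real.rpow_nonneg hn.le _) (Real.rpow_nonneg hS0 _), ← Real.rpow_mul hn.le,
      one_div_mul_cancel hq0.ne', Real.rpow_one, ← Real.rpow_mul hS0] at h9
    refine (le_of_eq ?_).trans h9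
    congr 2
    ring

end

end Pool.Agent.H159.Clarkson
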